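import Pool.Agent.TH289.K.A1

set_option autoImplicit false
set_option linter.unusedSectionVars false

open Filter Topology Set Metric unitInterval

namespace Pool.Agent.TH289.K

open Pool.Agent.H789R2.AN Pool.Agent.H789R2.GP
open Pool.Agent.W740.TC (SR_of_dist)
open Pool.Agent.W740.TC.Coc (isClosed_SR)

/-- A quadrilateral structure that is invariant under the homeomorphism. -/
structure IQS {X : Type*} [MetricSpace X] (g : X ≃ₜ X) (c : ℝ) extends QS g c where
  itF : ∀ a s u x, Q a s u x → Q (g a) (g s) (g u) (g x)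
  itB : ∀ a s u x, Q a s u x → Q (g.symm a) (g.symm s) (g.symm u) (g.symm x)

namespace IQS

variable {X : Type*} [MetricSpace X] {g : X ≃ₜ X} {c : ℝ} (T : IQS g c)

theorem iterF {a s u x : X} (h : T.Q a s u x) (j : ℕ) :
    T.Q (g^[j] a) (g^[j] s) (g^[j] u) (g^[j] x) := by
  induction j with
  | zero => exact h
  | succ j ih =>
    simp only [Function.iterate_succ_apply']
    exact T.itF _ _ _ _ ih

theorem iterB {a s u x : X} (h : T.Q a s u x) (j : ℕ) :
    T.Q (g.symm^[j] a) (g.symm^[j] s) (g.symm^[j] u) (g.symm^[j] x) := by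
  induction j with
  | zero => exact h
  | succ j ih =>
    simp only [Function.iterate_succ_apply']
    exact T.itB _ _ _ _ ih

end IQS

theorem exists_IQS {X : Type*} [MetricSpace X] [CompactSpace X] {g : X ≃ₜ X} {c : ℝ}
    (h : LP g c) (hX : ULC X) (hall : ∀ a s, WS g a s → Lf g a s) :
    ∃ c' > 0, Nonempty (IQS g c') := by
  obtain ⟨c', hc', T, hT⟩ := exists_QS' h hX hall
  refine ⟨c', hc', ⟨⟨T, ?_, ?_⟩⟩⟩
  · intro a s u x hQ
    rw [hT] at hQ ⊢
    exact QJ.iterR hQ 1
  · intro a s u x hQ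
    rw [hT] at hQ ⊢
    exact QJ.iterL hQ 1

/-- A semiconjugacy that is injective on the local unstable sets. -/
structure Semi {X Y : Type*} [MetricSpace X] [MetricSpace Y] (g : X ≃ₜ X) (k : Y ≃ₜ Y)
    (h : X → Y) : Prop where
  cont : Continuous h
  comm : ∀ x, h (g x) = k (h x)
  inj : ∃ ε > 0, ∀ x y, SR g.symm ε x y → h x = h y → x = y

namespace Semi

variable {X Y : Type*} [MetricSpace X] [MetricSpace Y] {g : X ≃ₜ X} {k : Y ≃ₜ Y} {h : X → Y}

theorem comm' (H : Semi g k h) (x : X) : h (g.symm x) = k.symm (h x) := by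
  apply k.injective
  rw [← H.comm, g.apply_symm_apply, k.apply_symm_apply]

theorem iter (H : Semi g k h) (n : ℕ) (x : X) : h (g^[n] x) = k^[n] (h x) := by
  induction n with
  | zero => rfl
  | succ n ih => rw [Function.iterate_succ_apply', Function.iterate_succ_apply', H.comm, ih]

theorem iter' (H : Semi g k h) (n : ℕ) (x : X) : h (g.symm^[n] x) = k.symm^[n] (h x) := by
  induction n with
  | zero => rfl
  | succ n ih => rw [Function.iterate_succ_apply', Function.iterate_succ_apply', H.comm', ih]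

variable [CompactSpace X]

theorem mapS (H : Semi g k h) {ε : ℝ} (hε : 0 < ε) :
    ∃ δ > 0, ∀ x y, SR g δ x y → SR k ε (h x) (h y) := by
  have hu := CompactSpace.uniformContinuous_of_continuous H.cont
  obtain ⟨δ, hδ, h1⟩ := Metric.uniformContinuous_iff.mp hu ε hε
  refine ⟨δ / 2, half_pos hδ, fun x y hxy n => ?_⟩
  rw [← H.iter, ← H.iter]
  exact (h1 (lt_of_le_of_lt (hxy n) (half_lt_self hδ))).le

theorem mapU (H : Semi g k h) {ε : ℝ} (hε : 0 < ε) :
    ∃ δ > 0, ∀ x y, SR g.symm δ x y → SR k.symm ε (h x) (h y) := by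
  have hu := CompactSpace.uniformContinuous_of_continuous H.cont
  obtain ⟨δ, hδ, h1⟩ := Metric.uniformContinuous_iff.mp hu ε hε
  refine ⟨δ / 2, half_pos hδ, fun x y hxy n => ?_⟩
  rw [← H.iter', ← H.iter']
  exact (h1 (lt_of_le_of_lt (hxy n) (half_lt_self hδ))).le

theorem wS (H : Semi g k h) {x y : X} (hxy : WS g x y) : WS k (h x) (h y) := by
  have hu := CompactSpace.uniformContinuous_of_continuous H.cont
  unfold WS at hxy ⊢
  rw [Metric.tendsto_atTop] at hxy ⊢
  intro ε hε
  obtain ⟨δ, hδ, h1⟩ := Metric.uniformContinuous_iff.mp hu ε hε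
  obtain ⟨N, hN⟩ := hxy δ hδ
  refine ⟨N, fun n hn => ?_⟩
  have h2 := hN n hn
  rw [Real.dist_0_eq_abs, abs_of_nonneg dist_nonneg] at h2 ⊢
  rw [← H.iter, ← H.iter]
  exact h1 h2

theorem wU (H : Semi g k h) {x y : X} (hxy : WS g.symm x y) : WS k.symm (h x) (h y) := by
  have hu := CompactSpace.uniformContinuous_of_continuous H.cont
  unfold WS at hxy ⊢
  rw [Metric.tendsto_atTop] at hxy ⊢
  intro ε hε
  obtain ⟨δ, hδ, h1⟩ := Metric.uniformContinuous_iff.mp hu ε hε
  obtain ⟨N, hN⟩ := hxy δ hδ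
  refine ⟨N, fun n hn => ?_⟩
  have h2 := hN n hn
  rw [Real.dist_0_eq_abs, abs_of_nonneg dist_nonneg] at h2 ⊢
  rw [← H.iter', ← H.iter']
  exact h1 h2

/-- injectivity on unstable leaves -/
theorem leaf_inj (H : Semi g k h) {x y : X} (hxy : WS g.symm x y) (he : h x = h y) : x = y := by
  obtain ⟨ε, hε, h1⟩ := H.inj
  obtain ⟨j, hj⟩ := hxy.level12 hε
  have h2 := h1 _ _ hj (by rw [H.iter', H.iter', he])
  have h3 := congrArg (g^[j]) h2
  rwa [iterR, iterR] at h3

/-- small images of unstable displacements come from small displacements -/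
theorem small (H : Semi g k h) {ε : ℝ} (hε : 0 < ε) :
    ∃ ρ > 0, ∀ x y, WS g.symm x y → SR k.symm ρ (h x) (h y) → SR g.symm ε x y := by
  obtain ⟨ε₀, hε₀, hinj⟩ := H.inj
  set ε' := min ε ε₀ with hε'
  have hε'0 : 0 < ε' := lt_min hε hε₀
  set K : Set (X × X) := {p | SR g.symm ε' p.1 p.2} ∩ {p | ε' ≤ dist (g p.1) (g p.2)} with hK
  have hKc : IsCompact K := by
    refine IsClosed.isCompact ((isClosed_SR g.symm ε').inter (isClosed_le continuous_const ?_))
    exact (g.continuous.comp continuous_fst).dist (g.continuous.comp continuous_snd)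
  obtain ⟨m, hm, hmin⟩ : ∃ m > 0, ∀ p ∈ K, m ≤ dist (h p.1) (h p.2) := by
    rcases K.eq_empty_or_nonempty with h0 | h0
    · exact ⟨1, one_pos, fun p hp => by rw [h0] at hp; exact absurd hp (notMem_empty _)⟩
    · have hcont : ContinuousOn (fun p : X × X => dist (h p.1) (h p.2)) K :=
        (((H.cont.comp continuous_fst).dist (H.cont.comp continuous_snd))).continuousOn
      obtain ⟨p, hp, hp2⟩ := hKc.exists_isMinOn h0 hcont
      refine ⟨dist (h p.1) (h p.2), ?_, fun q hq => hp2 hq⟩
      rw [gt_iff_lt, dist_pos]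
      intro h0
      have h1 := hinj _ _ (hp.1.mono (min_le_right _ _)) h0
      have h2 : ε' ≤ dist (g p.1) (g p.2) := hp.2
      rw [h1, dist_self] at h2
      linarith
  refine ⟨m / 2, half_pos hm, fun x y hxy hlt => ?_⟩
  by_contra hcon
  have hcon' : ¬ SR g.symm ε' x y := fun h => hcon (h.mono (min_le_left _ _))
  have hex : ∃ N, SR g.symm ε' (g.symm^[N] x) (g.symm^[N] y) := hxy.level12 hε'0
  classical
  have hN := Nat.find_spec hex
  have hmin' := fun k (hk : k < Nat.find hex) => Nat.find_min hex hk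
  set N := Nat.find hex
  have hN0 : N ≠ 0 := by
    intro h0
    rw [h0] at hN
    exact hcon' hN
  obtain ⟨j, hj⟩ := Nat.exists_eq_succ_of_ne_zero hN0
  have h1 := hmin' j (by omega)
  have e1 : ∀ z : X, g (g.symm^[N] z) = g.symm^[j] z := fun z => by
    rw [hj, Nat.succ_eq_add_one, Function.iterate_succ_apply' g.symm, g.apply_symm_apply]
  have h2 : ε' ≤ dist (g (g.symm^[N] x)) (g (g.symm^[N] y)) := by
    by_contra h3
    push Not at h3
    apply h1
    intro i
    rcases i with _ | i
    · rw [e1, e1] at h3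
      exact h3.le
    · have := hN i
      rw [hj, Nat.succ_eq_add_one, ← Function.iterate_add_apply, ← Function.iterate_add_apply] at this
      rw [← Function.iterate_add_apply, ← Function.iterate_add_apply]
      rwa [show i + 1 + j = i + (j + 1) by omega]
  have h3 := hmin (g.symm^[N] x, g.symm^[N] y) ⟨hN, h2⟩
  simp only at h3
  rw [H.iter', H.iter'] at h3
  have := hlt N
  linarith

end Semi

end Pool.Agent.TH289.K
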