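import Pool.Agent.TH289.K.A2

set_option autoImplicit false
set_option linter.unusedSectionVars false

open Filter Topology Set Metric unitInterval

namespace Pool.Agent.TH289.K

open Pool.Agent.H789R2.AN Pool.Agent.H789R2.GP
open Pool.Agent.W740.TC (SR_of_dist)

variable {X Y : Type*} [MetricSpace X] [MetricSpace Y] [CompactSpace X] {g : X ≃ₜ X} {k : Y ≃ₜ Y}
  {h : X → Y} {c c₂ : ℝ}

/-- small stable displacements slide along bounded unstable displacements -/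
theorem Semi.local_slide (H : Semi g k h) (hg : LP g c) (T : IQS k c₂) :
    ∃ c₁ > 0, c₁ ≤ c ∧ ∀ j : ℕ, ∀ ε > 0, ∃ η > 0, ∀ a s u, SR g η a s →
      SR g.symm c₁ (g.symm^[j] a) (g.symm^[j] u) →
      ∃ x, WS g.symm s x ∧ SR g ε u x ∧ T.Q (h a) (h s) (h u) (h x) := by
  obtain ⟨br, δ, hδ, hbr, hsmall, huniq, hunif⟩ := exists_br hg
  obtain ⟨θ₀, hθ₀, htiny⟩ := T.tiny
  obtain ⟨e1, he1, hS⟩ := H.mapS hθ₀
  obtain ⟨e2, he2, hU⟩ := H.mapU hθ₀
  obtain ⟨θ, hθ, hθ2⟩ := hsmall (min e1 e2) (lt_min he1 he2)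
  have hc := hg.c_pos
  set c₁ := min (min (δ / 2) (θ / 2)) (min (c / 3) e2) with hc₁
  have hc₁0 : 0 < c₁ := by positivity
  have b1 : c₁ ≤ δ / 2 := (min_le_left _ _).trans (min_le_left _ _)
  have b2 : c₁ ≤ θ / 2 := (min_le_left _ _).trans (min_le_right _ _)
  have b3 : c₁ ≤ c / 3 := (min_le_right _ _).trans (min_le_left _ _)
  have b4 : c₁ ≤ e2 := (min_le_right _ _).trans (min_le_right _ _)
  refine ⟨c₁, hc₁0, by linarith, fun j ε hε => ?_⟩
  obtain ⟨ε₂, hε₂, hcl⟩ := SR_of_dist hg hε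
  obtain ⟨η₂, hη₂, hun⟩ := hunif ε₂ hε₂
  set η' := min (η₂ / 2) (min (min (δ / 4) (θ / 4)) e1) with hη'
  have hη'0 : 0 < η' := by positivity
  have k1 : η' ≤ η₂ / 2 := min_le_left _ _
  have k3 : η' ≤ δ / 4 := (min_le_right _ _).trans ((min_le_left _ _).trans (min_le_left _ _))
  have k4 : η' ≤ θ / 4 := (min_le_right _ _).trans ((min_le_left _ _).trans (min_le_right _ _))
  have k5 : η' ≤ e1 := (min_le_right _ _).trans (min_le_right _ _)
  have hcm : ∀ x, g.symm (g x) = g (g.symm x) := fun x => by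
    rw [g.symm_apply_apply, g.apply_symm_apply]
  obtain ⟨η, hη0, hmap⟩ := uc_map_iter (g := g) (φ := g.symm) hcm j η' hη'0
  refine ⟨η, hη0, fun a s u has hau => ?_⟩
  have hq : SR g η' (g.symm^[j] a) (g.symm^[j] s) := hmap _ _ has
  set a' := g.symm^[j] a with ha'
  set s' := g.symm^[j] s with hs'
  set u' := g.symm^[j] u with hu'
  have d1 : dist a' u' ≤ c₁ := hau 0
  have d2 : dist a' s' ≤ η' := hq 0
  have d3 : dist u' s' ≤ c₁ + η' := by
    have := dist_triangle_left u' s' a'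
    linarith
  set z := br u' s' with hz
  obtain ⟨z1, z2⟩ := hbr u' s' (by linarith)
  obtain ⟨z3, z4⟩ := hθ2 u' s' (by linarith)
  have z5 : u' = br u' a' := huniq u' a' u' (by rw [dist_comm]; linarith)
    (fun k => by rw [dist_self]; positivity) (hau.mono b3)
  have z6 : dist z u' < ε₂ := by
    have := hun u' u' s' a' (by linarith) (by rw [dist_comm]; linarith)
      (by rwa [dist_self]) (by rw [dist_comm]; linarith)
    rwa [← z5] at this
  have z7 : SR g ε u' z := hcl u' z (z1.mono (by linarith)) (by rwa [dist_comm])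
  have q1 : T.Q (h a') (h s') (h u') (h z) := htiny _ _ _ _ (hS _ _ (hq.mono k5))
    (hU _ _ (hau.mono b4)) (hS _ _ (z3.mono (min_le_left _ _)))
    (hU _ _ (z4.mono (min_le_right _ _)))
  have q2 := T.iterF q1 j
  rw [← H.iter, ← H.iter, ← H.iter, ← H.iter, ha', hs', hu', iterR, iterR, iterR] at q2
  have w2 : WS g.symm s' z := WS.of_SR (hg.cU _ _ (z2.mono (by linarith)))
  have w3 : WS g.symm s (g^[j] z) := by
    have h1 : WS g.symm (g.symm^[j] s) (g.symm^[j] (g^[j] z)) := by rwa [iterL]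
    exact (WS.iter j).mp h1
  refine ⟨g^[j] z, w3, ?_, q2⟩
  have z8 := z7.shift j
  rwa [hu', iterR] at z8

/-- the stability of small unstable displacements at a fixed scale -/
theorem iqs_stab [CompactSpace Y] (hk : LP k c) (T : IQS k c₂) {ρ : ℝ} (hρ : 0 < ρ) :
    ∃ ρ₀ > 0, ∀ j : ℕ, ∃ η > 0, ∀ a s u x, SR k η a s →
      SR k.symm ρ₀ (k.symm^[j] a) (k.symm^[j] u) → T.Q a s u x →
      SR k.symm ρ (k.symm^[j] s) (k.symm^[j] x) := by
  obtain ⟨θ₀, hθ₀, htiny⟩ := T.tiny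
  obtain ⟨δ, hδ, hlp⟩ := hk.lp (min θ₀ ρ) (lt_min hθ₀ hρ)
  refine ⟨min (δ / 3) θ₀, by positivity, fun j => ?_⟩
  have hcm : ∀ x, k.symm (k x) = k (k.symm x) := fun x => by
    rw [k.symm_apply_apply, k.apply_symm_apply]
  obtain ⟨η, hη0, hmap⟩ := uc_map_iter (g := k) (φ := k.symm) hcm j (min (δ / 3) θ₀)
    (by positivity)
  refine ⟨η, hη0, fun a s u x has hau hQ => ?_⟩
  have h1 := hmap _ _ has
  have d1 : dist (k.symm^[j] u) (k.symm^[j] s) < δ := by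
    have e1 := (h1 0).trans (min_le_left _ _)
    have e2 := (hau 0).trans (min_le_left _ _)
    have := dist_triangle_left (k.symm^[j] u) (k.symm^[j] s) (k.symm^[j] a)
    simp only [Function.iterate_zero, id_eq] at e1 e2
    linarith
  obtain ⟨z, z1, z2⟩ := hlp _ _ d1
  have q1 := htiny _ _ _ _ (h1.mono (min_le_right _ _)) (hau.mono (min_le_right _ _))
    (z1.mono (min_le_left _ _)) (z2.mono (min_le_left _ _))
  have q2 := T.iterB hQ j
  rw [T.unique _ _ _ _ _ q2 q1]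
  exact z2.mono (min_le_right _ _)

/-- unstable displacements slide along stable paths -/
theorem Semi.slide [CompactSpace Y] (H : Semi g k h) (hX : ULC X) (hg : LP g c) {c' : ℝ}
    (hk : LP k c') (T : IQS k c₂) {a s u : X} (has : WS g a s) (hau : WS g.symm a u) :
    ∃ x, WS g.symm s x ∧ WS g u x ∧ T.Q (h a) (h s) (h u) (h x) := by
  have hc := hg.c_pos
  obtain ⟨c₁, hc₁, hc₁c, hL⟩ := H.local_slide hg T
  obtain ⟨ρ, hρ, hsm⟩ := H.small hc₁
  obtain ⟨ρ₀, hρ₀, hst⟩ := iqs_stab hk T hρ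
  obtain ⟨υ, hυ0, hυ1⟩ := leaf_conn hg hX a s has
  have hυa : ∀ t, WS g a (υ t).val := fun t => by
    have := WS_of_path hg υ 0 t
    rwa [hυ0] at this
  let R : I → Prop := fun t => ∃ x, WS g.symm (υ t).val x ∧ WS g u x ∧
    T.Q (h a) (h (υ t).val) (h u) (h x)
  -- the general step
  have hstep : ∀ (j : ℕ) (η : ℝ), (∀ a s u, SR g η a s →
      SR g.symm c₁ (g.symm^[j] a) (g.symm^[j] u) →
      ∃ x, WS g.symm s x ∧ SR g c u x ∧ T.Q (h a) (h s) (h u) (h x)) →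
      ∀ t t' : I, SR g η (υ t).val (υ t').val → ∀ y, T.Q (h a) (h (υ t).val) (h u) y →
      SR k.symm ρ (k.symm^[j] (h (υ t).val)) (k.symm^[j] y) → R t → R t' := by
    rintro j η hη t t' htt y hy hρy ⟨x, h1, h2, h3⟩
    have e1 : h x = y := T.unique _ _ _ _ _ h3 hy
    rw [← e1, ← H.iter', ← H.iter'] at hρy
    have h4 := hsm _ _ ((WS.iter (g := g.symm) j).mpr h1) hρy
    obtain ⟨x', k1, k2, k3⟩ := hη _ _ x htt h4
    exact ⟨x', k1, h2.trans (WS.of_SR (hg.cS _ _ k2)), T.compS _ _ _ _ _ _ h3 k3⟩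
  have hall : R 0 → R 1 :=
    PreconnectedSpace.induction₂' (fun t t' : I => R t → R t')
      (fun t => by
        obtain ⟨y, hy⟩ := T.ex _ _ _ (H.wS (hυa t)) (H.wU hau)
        have hy2 : WS k.symm (h (υ t).val) y := T.wU _ _ _ _ hy
        obtain ⟨j, hj⟩ := hy2.level12 (lt_min hρ hρ₀)
        obtain ⟨η₁, hη₁, hη₁2⟩ := hst j
        obtain ⟨η₂, hη₂, hη₂2⟩ := H.mapS hη₁
        obtain ⟨η, hη, hη3⟩ := hL j c hc
        have h1 : ∀ᶠ t' in 𝓝 t, dist (υ t') (υ t) < min η₂ η :=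
          (Metric.tendsto_nhds.mp (υ.continuous.tendsto t)) _ (lt_min hη₂ hη)
        filter_upwards [h1] with t' ht'
        have h4 : SR g (min η₂ η) (υ t).val (υ t').val := by
          rw [dist_comm] at ht'
          exact (SM.dist_le _ _ (lt_min hη₂ hη).le).mp ht'.le
        obtain ⟨y', hy'⟩ := T.ex _ _ _ (H.wS (hυa t')) (H.wU hau)
        have h5 : T.Q (h (υ t).val) (h (υ t').val) y y' :=
          T.compS _ _ _ _ _ _ (T.flipS _ _ _ _ hy) hy'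
        have h6 := hη₁2 _ _ _ _ (hη₂2 _ _ (h4.mono (min_le_left _ _)))
          (hj.mono (min_le_right _ _)) h5
        exact ⟨hstep j η hη3 t t' (h4.mono (min_le_right _ _)) y hy (hj.mono (min_le_left _ _)),
          hstep j η hη3 t' t (h4.symm'.mono (min_le_right _ _)) y' hy' h6⟩)
      ⟨fun _ _ _ h1 h2 h3 => h2 (h1 h3)⟩ 0 1
  obtain ⟨x, h1, h2, h3⟩ := hall ⟨u, by rw [hυ0]; exact hau, WS.refl _ _, by
    rw [hυ0]
    exact qs_degU T.toQS (H.wU hau)⟩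
  rw [hυ1] at h1 h3
  exact ⟨x, h1, h2, h3⟩

/-- The pulled back quadrilateral structure. -/
theorem Semi.exists_IQS [CompactSpace Y] (H : Semi g k h) (hX : ULC X) (hg : LP g c) {c' : ℝ}
    (hk : LP k c') (hc₂ : 0 < c₂) (T : IQS k c₂) :
    ∃ c₁ > 0, c₁ ≤ c ∧ ∃ T₁ : IQS g c₁, ∀ a s u x, T₁.Q a s u x ↔ (WS g a s ∧ WS g.symm a u ∧
      WS g u x ∧ WS g.symm s x ∧ T.Q (h a) (h s) (h u) (h x)) := by
  have hc := hg.c_pos
  obtain ⟨c₁, hc₁, hc₁c, hL⟩ := H.local_slide hg T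
  obtain ⟨d, hd, hdS⟩ := H.mapS hc₂
  have m0 : 0 < min c₁ d := lt_min hc₁ hd
  refine ⟨min c₁ d, m0, (min_le_left _ _).trans hc₁c, ⟨⟨fun a s u x =>
    WS g a s ∧ WS g.symm a u ∧ WS g u x ∧ WS g.symm s x ∧ T.Q (h a) (h s) (h u) (h x),
    ?_, ?_, ?_, ?_, ?_, ?_, ?_, ?_, ?_, ?_, ?_⟩, ?_, ?_⟩, fun a s u x => Iff.rfl⟩
  · intro a s u has hau
    obtain ⟨x, h1, h2, h3⟩ := H.slide hX hg hk T has hau
    exact ⟨x, has, hau, h2, h1, h3⟩
  · rintro a s u x x' ⟨-, -, -, h1, h2⟩ ⟨-, -, -, h3, h4⟩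
    exact H.leaf_inj (h1.symm'.trans h3) (T.unique _ _ _ _ _ h2 h4)
  · exact fun a s u x h1 => h1.2.2.1
  · exact fun a s u x h1 => h1.2.2.2.1
  · rintro a s u x u' x' ⟨h1, h2, h3, h4, h5⟩ ⟨-, h6, h7, h8, h9⟩
    exact ⟨h1, h2.trans h6, h7, h4.trans h8, T.compU _ _ _ _ _ _ h5 h9⟩
  · rintro a s u x s' x' ⟨h1, h2, h3, h4, h5⟩ ⟨h6, -, h7, h8, h9⟩
    exact ⟨h1.trans h6, h2, h3.trans h7, h8, T.compS _ _ _ _ _ _ h5 h9⟩
  · rintro a s u x ⟨h1, h2, h3, h4, h5⟩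
    exact ⟨h3, h2.symm', h1, h4.symm', T.flipU _ _ _ _ h5⟩
  · rintro a s u x ⟨h1, h2, h3, h4, h5⟩
    exact ⟨h1.symm', h4, h3.symm', h2, T.flipS _ _ _ _ h5⟩
  · obtain ⟨θ₀, hθ₀, htiny⟩ := T.tiny
    obtain ⟨e1, he1, hS⟩ := H.mapS hθ₀
    obtain ⟨e2, he2, hU⟩ := H.mapU hθ₀
    have n1 : min (min e1 e2) c ≤ e1 := (min_le_left _ _).trans (min_le_left _ _)
    have n2 : min (min e1 e2) c ≤ e2 := (min_le_left _ _).trans (min_le_right _ _)
    have n3 : min (min e1 e2) c ≤ c := min_le_right _ _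
    exact ⟨min (min e1 e2) c, by positivity, fun a s u x h1 h2 h3 h4 =>
      ⟨WS.of_SR (hg.cS _ _ (h1.mono n3)), WS.of_SR (hg.cU _ _ (h2.mono n3)),
      WS.of_SR (hg.cS _ _ (h3.mono n3)), WS.of_SR (hg.cU _ _ (h4.mono n3)),
      htiny _ _ _ _ (hS _ _ (h1.mono n1)) (hU _ _ (h2.mono n2)) (hS _ _ (h3.mono n1))
        (hU _ _ (h4.mono n2))⟩⟩
  · intro j ε hε
    obtain ⟨η, hη, h1⟩ := hL j ε hε
    refine ⟨η, hη, fun a s u x hQ has hau => ?_⟩
    obtain ⟨x', k1, k2, k3⟩ := h1 a s u has (hau.mono (min_le_left _ _))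
    have : x' = x := H.leaf_inj (k1.symm'.trans hQ.2.2.2.1)
      (T.unique _ _ _ _ _ k3 hQ.2.2.2.2)
    rwa [this] at k2
  · intro j ε hε
    obtain ⟨ρ, hρ, h1⟩ := H.small hε
    obtain ⟨η, hη, h2⟩ := T.contU j ρ hρ
    obtain ⟨η', hη', h3⟩ := H.mapU hη
    refine ⟨η', hη', fun a s u x hQ hau has => h1 s x hQ.2.2.2.1 ?_⟩
    refine h2 _ _ _ _ hQ.2.2.2.2 (h3 _ _ hau) ?_
    rw [← H.iter, ← H.iter]
    exact hdS _ _ (has.mono (min_le_right _ _))
  · rintro a s u x ⟨h1, h2, h3, h4, h5⟩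
    refine ⟨(WS.iter (g := g) 1).mpr h1, ?_, (WS.iter (g := g) 1).mpr h3, ?_, ?_⟩
    · apply (WS.iter (g := g.symm) 1).mp
      simpa using h2
    · apply (WS.iter (g := g.symm) 1).mp
      simpa using h4
    · rw [H.comm, H.comm, H.comm, H.comm]
      exact T.itF _ _ _ _ h5
  · rintro a s u x ⟨h1, h2, h3, h4, h5⟩
    refine ⟨?_, (WS.iter (g := g.symm) 1).mpr h2, ?_, (WS.iter (g := g.symm) 1).mpr h4, ?_⟩
    · apply (WS.iter (g := g) 1).mp
      simpa using h1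
    · apply (WS.iter (g := g) 1).mp
      simpa using h3
    · rw [H.comm', H.comm', H.comm', H.comm']
      exact T.itB _ _ _ _ h5

end Pool.Agent.TH289.K
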