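import Pool.Agent.TH289.K.A3

set_option autoImplicit false
set_option linter.unusedSectionVars false

open Filter Topology Set Metric unitInterval

namespace Pool.Agent.TH289.K

open Pool.Agent.H789R2.AN Pool.Agent.H789R2.GP
open Pool.Agent.W740.TC (SR_of_dist)
open Pool.Agent.W740.TC.Coc (isClosed_SR)

variable {X Y : Type*} [MetricSpace X] [MetricSpace Y] [CompactSpace X] {g : X ≃ₜ X} {k : Y ≃ₜ Y}
  {h : X → Y} {c c₂ : ℝ}

/-- the uniform decay -/
theorem exists_pow_lt {c : ℝ} {ε : ℝ} (hε : 0 < ε) :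
    ∃ N : ℕ, ∀ n ≥ N, c * (1 / 2 : ℝ) ^ n < ε := by
  have h5 : Tendsto (fun n : ℕ => c * (1 / 2 : ℝ) ^ n) atTop (𝓝 0) := by
    have := (tendsto_pow_atTop_nhds_zero_of_lt_one (by norm_num : (0:ℝ) ≤ 1 / 2)
      (by norm_num)).const_mul c
    simpa using this
  exact eventually_atTop.mp ((tendsto_order.mp h5).2 ε hε)

/-- (C1) close points of a fibre are on one local stable set -/
theorem Semi.fib_close (H : Semi g k h) (hg : LP g c) {c' : ℝ} (hk : LP k c') {ε : ℝ}
    (hε : 0 < ε) : ∃ δ > 0, ∀ x y, h x = h y → dist x y < δ → SR g ε x y := by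
  obtain ⟨ε₀, hε₀, hinj⟩ := H.inj
  obtain ⟨e1, he1, hS⟩ := H.mapS hk.c_pos
  obtain ⟨e2, he2, hU⟩ := H.mapU hk.c_pos
  obtain ⟨δ, hδ, hlp⟩ := hg.lp (min (min ε ε₀) (min e1 e2)) (by positivity)
  refine ⟨δ, hδ, fun x y hxy hd => ?_⟩
  obtain ⟨z, hz1, hz2⟩ := hlp x y hd
  have e3 : h x = h z := Pool.Agent.H789R2.GP.expansive hk
    (hS _ _ (hz1.mono ((min_le_right _ _).trans (min_le_left _ _))))
    (by rw [hxy]; exact hU _ _ (hz2.mono ((min_le_right _ _).trans (min_le_right _ _))))
  have e4 : y = z := hinj _ _ (hz2.mono ((min_le_left _ _).trans (min_le_right _ _)))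
    (hxy.symm.trans e3)
  rw [e4]
  exact hz1.mono ((min_le_left _ _).trans (min_le_left _ _))

/-- (C2) the fibre of a periodic point meets its stable leaf only in this point -/
theorem Semi.fib_per (H : Semi g k h) (hg : LP g c) {c' : ℝ} (hk : LP k c') {p y : X} {N : ℕ}
    (hN : 1 ≤ N) (hp : g^[N] p = p) (hy : WS g p y) (he : h p = h y) : y = p := by
  obtain ⟨δ, hδ, hfib⟩ := H.fib_close hg hk hg.c_pos
  have hpm : ∀ n : ℕ, g^[N * n] p = p := fun n => by
    rw [Function.iterate_mul]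
    exact Function.iterate_fixed hp n
  have hkm : ∀ n : ℕ, k.symm^[N * n] (h p) = h p := fun n => by
    have h1 : k^[N * n] (h p) = h p := by rw [← H.iter, hpm]
    have h2 := iterL k (N * n) (h p)
    rwa [h1] at h2
  let y' : ℕ → X := fun n => g.symm^[N * n] y
  have hy' : ∀ n, h (y' n) = h p := fun n => by
    show h (g.symm^[N * n] y) = h p
    rw [H.iter', ← he, hkm]
  have hws : ∀ n, WS g p (y' n) := fun n => by
    have h1 : WS g (g^[N * n] p) (g^[N * n] (y' n)) := by
      rw [hpm]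
      show WS g p (g^[N * n] (g.symm^[N * n] y))
      rw [iterR]
      exact hy
    exact (WS.iter (N * n)).mp h1
  obtain ⟨z, φ, hφ, hz⟩ := CompactSpace.tendsto_subseq y'
  have hhz : h z = h p := by
    have h1 : Tendsto (fun n => h (y' (φ n))) atTop (𝓝 (h z)) :=
      (H.cont.tendsto z).comp hz
    have h2 : (fun n => h (y' (φ n))) = fun _ => h p := funext fun n => hy' _
    rw [h2] at h1
    exact tendsto_nhds_unique h1 tendsto_const_nhds
  obtain ⟨n₀, hn₀⟩ := (Metric.tendsto_atTop.mp hz) δ hδ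
  have hsr : ∀ n ≥ n₀, SR g c (y' (φ n)) z := fun n hn =>
    hfib _ _ ((hy' _).trans hhz.symm) (hn₀ n hn)
  have hzp : WS g z p :=
    ((hws (φ n₀)).trans (WS.of_SR (hg.cS _ _ (hsr n₀ le_rfl)))).symm'
  refine dist_le_zero.mp (le_of_forall_pos_lt_add fun ε hε => ?_)
  rw [zero_add]
  obtain ⟨M₁, hM₁⟩ := exists_pow_lt (c := c) (half_pos hε)
  obtain ⟨M₂, hM₂⟩ := hzp.eventually_lt (half_pos hε)
  set n := max n₀ (max M₁ M₂) with hn
  have hnφ : n ≤ φ n := hφ.id_le n
  have hm : n ≤ N * φ n := hnφ.trans (Nat.le_mul_of_pos_left _ hN)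
  have h1 := hg.cS _ _ (hsr n (le_max_left _ _)) (N * φ n)
  have h2 := hM₂ (N * φ n) (((le_max_right _ _).trans (le_max_right _ _)).trans hm)
  have h3 := hM₁ (N * φ n) (((le_max_left _ _).trans (le_max_right _ _)).trans hm)
  have h4 : g^[N * φ n] (y' (φ n)) = y := by
    show g^[N * φ n] (g.symm^[N * φ n] y) = y
    rw [iterR]
  rw [h4] at h1
  rw [hpm] at h2
  have := dist_triangle y (g^[N * φ n] z) p
  linarith

/-- (C3) properness on the stable leaf of a periodic point -/
theorem Semi.proper_per (H : Semi g k h) (hg : LP g c) {c' : ℝ} (hk : LP k c') {p : X} {N : ℕ}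
    (hN : 1 ≤ N) (hp : g^[N] p = p) {ε : ℝ} (hε : 0 < ε) (hεc : ε ≤ c) :
    ∃ k₀ : ℕ, ∀ (m : ℕ) (x : X), WS g p x → SR k c' (k^[m] (h p)) (k^[m] (h x)) →
      SR g ε (g^[m + k₀] p) (g^[m + k₀] x) := by
  set P : Set X := {q | ∃ i < N, q = g^[i] p} with hP
  have hPfin : P.Finite := by
    have e : P = (fun i : ℕ => g^[i] p) '' (Finset.range N : Set ℕ) := by
      ext q
      simp only [hP, Set.mem_ofPred_eq, Set.mem_image, Finset.coe_range, Set.mem_Iio]
      exact ⟨fun ⟨i, hi, hq⟩ => ⟨i, hi, hq.symm⟩, fun ⟨i, hi, hq⟩ => ⟨i, hi, hq.symm⟩⟩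
    rw [e]
    exact (Finset.finite_toSet _).image _
  have hPper : ∀ q ∈ P, g^[N] q = q := by
    rintro q ⟨i, -, rfl⟩
    rw [← Function.iterate_add_apply, Nat.add_comm, Function.iterate_add_apply, hp]
  have hPm : ∀ n : ℕ, g^[n] p ∈ P := fun n => ⟨n % N, Nat.mod_lt _ hN, by
    have h1 : Function.IsPeriodicPt g N p := hp
    exact (h1.iterate_mod_apply n).symm⟩
  set K : Set (X × X) := (Prod.fst ⁻¹' P ∩ {q | SR g ε q.1 q.2}) ∩
    {q | ε ≤ dist (g.symm q.1) (g.symm q.2)} with hK
  have hKc : IsCompact K := by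
    refine IsClosed.isCompact (((hPfin.isClosed.preimage continuous_fst).inter
      (isClosed_SR g ε)).inter (isClosed_le continuous_const ?_))
    exact (g.symm.continuous.comp continuous_fst).dist (g.symm.continuous.comp continuous_snd)
  obtain ⟨m₀, hm₀, hmin⟩ : ∃ m₀ > 0, ∀ q ∈ K, m₀ ≤ dist (h q.1) (h q.2) := by
    rcases K.eq_empty_or_nonempty with h0 | h0
    · exact ⟨1, one_pos, fun p hp => by rw [h0] at hp; exact absurd hp (notMem_empty _)⟩
    · have hcont : ContinuousOn (fun p : X × X => dist (h p.1) (h p.2)) K :=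
        (((H.cont.comp continuous_fst).dist (H.cont.comp continuous_snd))).continuousOn
      obtain ⟨q, hq, hq2⟩ := hKc.exists_isMinOn h0 hcont
      refine ⟨dist (h q.1) (h q.2), ?_, fun q' hq' => hq2 hq'⟩
      rw [gt_iff_lt, dist_pos]
      intro h0
      have h1 : q.2 = q.1 := H.fib_per hg hk hN (hPper _ hq.1.1)
        (WS.of_SR (hg.cS _ _ (SR.mono (show SR g ε q.1 q.2 from hq.1.2) hεc))) h0
      have h2 : ε ≤ dist (g.symm q.1) (g.symm q.2) := hq.2
      rw [h1, dist_self] at h2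
      linarith
  obtain ⟨k₀, hk₀⟩ := exists_pow_lt (c := c') hm₀
  refine ⟨k₀, fun m x hx hm => ?_⟩
  have hex : ∃ n, SR g ε (g^[n] p) (g^[n] x) := hx.level12 hε
  classical
  have hn := Nat.find_spec hex
  have hmin' := fun i (hi : i < Nat.find hex) => Nat.find_min hex hi
  set n := Nat.find hex
  rcases le_or_gt n (m + k₀) with hle | hgt
  · obtain ⟨j, hj⟩ := Nat.exists_eq_add_of_le hle
    have h1 := hn.shift j
    rw [← Function.iterate_add_apply, ← Function.iterate_add_apply] at h1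
    rwa [hj, Nat.add_comm n j]
  · exfalso
    obtain ⟨j, hj⟩ := Nat.exists_eq_succ_of_ne_zero (show n ≠ 0 by omega)
    have h1 := hmin' j (by omega)
    have e1 : ∀ z : X, g.symm (g^[n] z) = g^[j] z := fun z => by
      rw [hj, Nat.succ_eq_add_one, Function.iterate_succ_apply' g, g.symm_apply_apply]
    have h2 : ε ≤ dist (g.symm (g^[n] p)) (g.symm (g^[n] x)) := by
      by_contra h3
      push Not at h3
      apply h1
      intro i
      rcases i with _ | i
      · rw [e1, e1] at h3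
        exact h3.le
      · have := hn i
        rw [hj, Nat.succ_eq_add_one, ← Function.iterate_add_apply,
          ← Function.iterate_add_apply] at this
        rw [← Function.iterate_add_apply, ← Function.iterate_add_apply]
        rwa [show i + 1 + j = i + (j + 1) by omega]
    have h3 := hmin (g^[n] p, g^[n] x) ⟨⟨hPm n, hn⟩, h2⟩
    simp only at h3
    rw [H.iter, H.iter] at h3
    have h4 := hk.cS _ _ hm (n - m)
    rw [← Function.iterate_add_apply, ← Function.iterate_add_apply,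
      Nat.sub_add_cancel (by omega)] at h4
    have h5 := hk₀ (n - m) (by omega)
    linarith

end Pool.Agent.TH289.K
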