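import Pool.Agent.TH289.K.A4

set_option autoImplicit false
set_option linter.unusedSectionVars false

open Filter Topology Set Metric unitInterval

namespace Pool.Agent.TH289.K

open Pool.Agent.H789R2.AN Pool.Agent.H789R2.GP
open Pool.Agent.W740.TC (SR_of_dist)
open Pool.Agent.W740.TC.Coc (isClosed_SR)

variable {X Y : Type*} [MetricSpace X] [MetricSpace Y] [CompactSpace X] {g : X ≃ₜ X} {k : Y ≃ₜ Y}
  {h : X → Y} {c c₁ c₂ : ℝ}

/-- the level of a stable displacement under small unstable slides -/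
theorem IQS.level (T : IQS g c₁) (hg : LP g c) {ε : ℝ} (hε : 0 < ε) : ∃ κ > 0, ∀ j : ℕ, ∃ η > 0,
    ∀ w y x z, T.Q w y x z → SR g.symm η w x → SR g κ (g^[j] w) (g^[j] y) →
      SR g ε (g^[j] x) (g^[j] z) := by
  obtain ⟨θ₀, hθ₀, htiny⟩ := T.tiny
  obtain ⟨δ, hδ, hlp⟩ := hg.lp (min θ₀ ε) (lt_min hθ₀ hε)
  refine ⟨min (δ / 3) θ₀, by positivity, fun j => ?_⟩
  have hcm : ∀ x, g (g.symm x) = g.symm (g x) := fun x => by
    rw [g.symm_apply_apply, g.apply_symm_apply]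
  obtain ⟨η, hη, hmap⟩ := uc_map_iter (g := g.symm) (φ := g) hcm j (min (δ / 3) θ₀)
    (by positivity)
  refine ⟨η, hη, fun w y x z hQ hwx hwy => ?_⟩
  have h1 := hmap _ _ hwx
  have d1 : dist (g^[j] x) (g^[j] y) < δ := by
    have e1 := (h1 0).trans (min_le_left _ _)
    have e2 := (hwy 0).trans (min_le_left _ _)
    have := dist_triangle_left (g^[j] x) (g^[j] y) (g^[j] w)
    simp only [Function.iterate_zero, id_eq] at e1 e2
    linarith
  obtain ⟨z', z1, z2⟩ := hlp _ _ d1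
  have q1 := htiny _ _ _ _ (hwy.mono (min_le_right _ _)) (h1.mono (min_le_right _ _))
    (z1.mono (min_le_left _ _)) (z2.mono (min_le_left _ _))
  rw [T.unique _ _ _ _ _ (T.iterF hQ j) q1]
  exact z1.mono (min_le_right _ _)

/-- closeness on bounded parts of stable leaves -/
theorem SR_of_dist_level (hg : LP g c) (m : ℕ) {ε : ℝ} (hε : 0 < ε) : ∃ δ > 0, ∀ x y,
    SR g c (g^[m] x) (g^[m] y) → dist x y < δ → SR g ε x y := by
  obtain ⟨δ₁, hδ₁, h1⟩ := SR_of_dist hg hε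
  obtain ⟨δ₂, hδ₂, h2⟩ := T1_unif g m (lt_min hε hδ₁)
  refine ⟨δ₂, hδ₂, fun x y hxy hd i => ?_⟩
  rcases le_total i m with hi | hi
  · exact ((h2 i hi x y hd).trans_le (min_le_left _ _)).le
  · obtain ⟨j, rfl⟩ := Nat.exists_eq_add_of_le hi
    have h3 := h1 _ _ hxy ((h2 m le_rfl x y hd).trans_le (min_le_right _ _)) j
    rw [← Function.iterate_add_apply, ← Function.iterate_add_apply] at h3
    rwa [Nat.add_comm m j]

theorem SR_up {ε : ℝ} {x y : X} {m n : ℕ} (h : SR g ε (g^[m] x) (g^[m] y)) (hmn : m ≤ n) :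
    SR g ε (g^[n] x) (g^[n] y) := by
  obtain ⟨j, rfl⟩ := Nat.exists_eq_add_of_le hmn
  have h1 := h.shift j
  rw [← Function.iterate_add_apply, ← Function.iterate_add_apply] at h1
  rwa [Nat.add_comm m j]

/-- (C4), local form -/
theorem Semi.bound_loc (H : Semi g k h) (hg : LP g c) {c' : ℝ} (hk : LP k c') (hc₁ : 0 < c₁)
    (T₁ : IQS g c₁) (hT₁ : ∀ a s u x, T₁.Q a s u x → WS g a s ∧ WS g.symm a u ∧
      (h a = h s → h u = h x)) {p : X} {N : ℕ}
    (hN : 1 ≤ N) (hp : g^[N] p = p) (x₀ : X)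
    (hx₀ : ∃ u s, T₁.Q p s u x₀) :
    ∃ U ∈ 𝓝 x₀, ∃ m : ℕ, ∀ x ∈ U, ∀ y, WS g x y → h x = h y →
      SR g c (g^[m] x) (g^[m] y) := by
  have hc := hg.c_pos
  obtain ⟨u, s, hQ₀⟩ := hx₀
  obtain ⟨hs, hu, -⟩ := hT₁ _ _ _ _ hQ₀
  -- step A
  obtain ⟨d₁, hd₁, hdS⟩ := H.mapS hk.c_pos
  obtain ⟨mS, hmS⟩ := hs.level12 (half_pos hd₁)
  -- step B
  have hxs : WS g.symm x₀ s := (T₁.wU _ _ _ _ hQ₀).symm'
  obtain ⟨jS, hjS⟩ := hxs.level12 hc₁
  obtain ⟨ηB, hηB, hB⟩ := T₁.contS jS (d₁ / 2) (half_pos hd₁)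
  -- step C
  obtain ⟨k₀, hk₀⟩ := H.proper_per hg hk hN hp (half_pos hc) (half_le_self hc.le)
  set m' := mS + k₀ with hm'
  -- step D
  obtain ⟨m₁, hm₁⟩ : ∃ m₁ : ℕ, ∀ t, SR g (c / 2) (g^[m'] p) (g^[m'] t) → ∀ y, T₁.Q p t u y →
      SR g (c / 2) (g^[m₁] u) (g^[m₁] y) := by
    have hind : ∃ m₁ : ℕ, ∀ t ∈ (univ : Set X), SR g (c / 2) (g^[m'] p) (g^[m'] t) →
        ∀ y, T₁.Q p t u y → SR g (c / 2) (g^[m₁] u) (g^[m₁] y) := by
      refine isCompact_univ.induction_on (p := fun S : Set X => ∃ m₁ : ℕ, ∀ t ∈ S,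
        SR g (c / 2) (g^[m'] p) (g^[m'] t) → ∀ y, T₁.Q p t u y →
        SR g (c / 2) (g^[m₁] u) (g^[m₁] y)) ?_ ?_ ?_ ?_
      · exact ⟨0, fun t ht => absurd ht (notMem_empty t)⟩
      · rintro S S' hSS ⟨m, hm⟩
        exact ⟨m, fun t ht => hm t (hSS ht)⟩
      · rintro S S' ⟨m, hm⟩ ⟨n, hn⟩
        refine ⟨max m n, fun t ht ht' y hy => ?_⟩
        rcases ht with ht | ht
        · exact SR_up (hm t ht ht' y hy) (le_max_left _ _)
        · exact SR_up (hn t ht ht' y hy) (le_max_right _ _)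
      · rintro t -
        by_cases ht : SR g (c / 2) (g^[m'] p) (g^[m'] t)
        · have hpt : WS g p t :=
            (WS.iter m').mp (WS.of_SR (hg.cS _ _ (ht.mono (half_le_self hc.le))))
          obtain ⟨y, hy⟩ := T₁.ex p t u hpt hu
          obtain ⟨mt, hmt⟩ := (T₁.wS _ _ _ _ hy).level12 (show (0:ℝ) < c / 4 by linarith)
          obtain ⟨jt, hjt⟩ := (T₁.wU _ _ _ _ hy).level12 hc₁
          obtain ⟨η, hη, hη2⟩ := T₁.contS jt (c / 4) (by linarith)
          obtain ⟨δ, hδ, hδ2⟩ := SR_of_dist_level hg m' hη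
          refine ⟨ball t δ, mem_nhdsWithin_of_mem_nhds (ball_mem_nhds t hδ), mt,
            fun t' ht' hBt' y' hy' => ?_⟩
          have e1 : SR g η t t' := by
            refine hδ2 _ _ ?_ (by rw [dist_comm]; exact mem_ball.mp ht')
            have := ht.symm'.tr hBt'
            rwa [add_halves] at this
          have e2 : T₁.Q t t' y y' := T₁.compS _ _ _ _ _ _ (T₁.flipS _ _ _ _ hy) hy'
          have e3 := hη2 _ _ _ _ e2 e1 hjt
          have e4 := hmt.tr (e3.shift mt)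
          exact e4.mono (by linarith)
        · -- the set is closed
          refine ⟨{t' | ¬ SR g (c / 2) (g^[m'] p) (g^[m'] t')}, ?_, 0,
            fun t' ht' hBt' => absurd hBt' ht'⟩
          refine mem_nhdsWithin_of_mem_nhds (IsOpen.mem_nhds ?_ ht)
          have h1 : IsClosed {t' | SR g (c / 2) (g^[m'] p) (g^[m'] t')} :=
            (isClosed_SR g (c / 2)).preimage (continuous_const.prodMk (g.continuous.iterate m'))
          exact h1.isOpen_compl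
    obtain ⟨m₁, h1⟩ := hind
    exact ⟨m₁, fun t ht => h1 t (mem_univ t) ht⟩
  -- step E
  obtain ⟨m₂, hm₂⟩ := (T₁.wS _ _ _ _ hQ₀).level12 (show (0:ℝ) < c / 4 by linarith)
  obtain ⟨κ, hκ, hlev⟩ := T₁.level hg hc
  obtain ⟨n₀, hn₀⟩ := exists_pow_lt (c := c) hκ
  set m₃ := max m₁ m₂ with hm₃
  set j := m₃ + n₀ with hj
  obtain ⟨ηL, hηL, hlev2⟩ := hlev j
  obtain ⟨δ, hδ, hlp⟩ := hg.lp (min (min ηB (c / 4)) ηL) (by positivity)
  refine ⟨ball x₀ δ, ball_mem_nhds _ hδ, j, fun x hx y hxy hhxy => ?_⟩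
  obtain ⟨w, hw1, hw2⟩ := hlp x₀ x (by rw [dist_comm]; exact mem_ball.mp hx)
  have n1 : min (min ηB (c / 4)) ηL ≤ ηB := (min_le_left _ _).trans (min_le_left _ _)
  have n2 : min (min ηB (c / 4)) ηL ≤ c / 4 := (min_le_left _ _).trans (min_le_right _ _)
  have n3 : min (min ηB (c / 4)) ηL ≤ ηL := min_le_right _ _
  have hx₀w : WS g x₀ w := WS.of_SR (hg.cS _ _ (hw1.mono (by linarith)))
  have hxw : WS g.symm x w := WS.of_SR (hg.cU _ _ (hw2.mono (by linarith)))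
  -- the slide of y
  obtain ⟨yw, hyw⟩ := T₁.ex x y w hxy hxw
  have hhw : h w = h yw := (hT₁ _ _ _ _ hyw).2.2 hhxy
  -- the slide of w
  obtain ⟨sw, hsw⟩ := T₁.ex x₀ w s hx₀w hxs
  have hQw : T₁.Q p sw u w := T₁.compS _ _ _ _ _ _ hQ₀ (T₁.flipU _ _ _ _ hsw)
  have hwyw : WS g w yw := T₁.wS _ _ _ _ hyw
  have hwsw : WS g.symm w sw := (T₁.wU _ _ _ _ hQw).symm'
  obtain ⟨sy, hsy⟩ := T₁.ex w yw sw hwyw hwsw
  have hQy : T₁.Q p sy u yw := T₁.compS _ _ _ _ _ _ hQw (T₁.flipU _ _ _ _ hsy)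
  have hhs : h sw = h sy := (hT₁ _ _ _ _ hsy).2.2 hhw
  -- the level of sw
  have a1 : SR g (d₁ / 2) s sw := hB _ _ _ _ hsw (hw1.mono n1) hjS
  have a2 : SR g d₁ (g^[mS] p) (g^[mS] sw) := by
    have := hmS.tr (a1.shift mS)
    rwa [add_halves] at this
  have a3 : SR k c' (k^[mS] (h p)) (k^[mS] (h sy)) := by
    have := hdS _ _ a2
    rwa [H.iter, H.iter, hhs] at this
  have a4 := hk₀ mS sy (hT₁ _ _ _ _ hQy).1 a3
  have a5 := hm₁ sy a4 yw hQy
  have a6 : SR g (c / 2) (g^[m₂] u) (g^[m₂] w) := by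
    have := hm₂.tr ((hw1.mono n2).shift m₂)
    exact this.mono (by linarith)
  have a7 : SR g c (g^[m₃] w) (g^[m₃] yw) := by
    have := (SR_up a6 (le_max_right m₁ m₂)).symm'.tr (SR_up a5 (le_max_left m₁ m₂))
    rwa [add_halves] at this
  have a8 : SR g κ (g^[j] w) (g^[j] yw) := by
    intro i
    have h1 := hg.cS _ _ a7 (i + n₀)
    rw [← Function.iterate_add_apply, ← Function.iterate_add_apply] at h1 ⊢
    rw [show i + n₀ + m₃ = i + j by omega] at h1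
    exact h1.trans (hn₀ _ (by omega)).le
  exact hlev2 _ _ _ _ (T₁.flipU _ _ _ _ hyw) ((hw2.mono n3).symm') a8

/-- (C4) -/
theorem Semi.bound (H : Semi g k h) (hg : LP g c) {c' : ℝ} (hk : LP k c') (hc₁ : 0 < c₁)
    (T₁ : IQS g c₁) (hT₁ : ∀ a s u x, T₁.Q a s u x → WS g a s ∧ WS g.symm a u ∧
      (h a = h s → h u = h x)) {p : X} {N : ℕ}
    (hN : 1 ≤ N) (hp : g^[N] p = p) (hx : ∀ x, ∃ u s, T₁.Q p s u x) :
    ∃ m : ℕ, ∀ x y, WS g x y → h x = h y → SR g c (g^[m] x) (g^[m] y) := by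
  have hind : ∃ m : ℕ, ∀ x ∈ (univ : Set X), ∀ y, WS g x y → h x = h y →
      SR g c (g^[m] x) (g^[m] y) := by
    refine isCompact_univ.induction_on (p := fun S : Set X => ∃ m : ℕ, ∀ x ∈ S, ∀ y,
      WS g x y → h x = h y → SR g c (g^[m] x) (g^[m] y)) ?_ ?_ ?_ ?_
    · exact ⟨0, fun t ht => absurd ht (notMem_empty t)⟩
    · rintro S S' hSS ⟨m, hm⟩
      exact ⟨m, fun t ht => hm t (hSS ht)⟩
    · rintro S S' ⟨m, hm⟩ ⟨n, hn⟩
      refine ⟨max m n, fun t ht y hy hy' => ?_⟩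
      rcases ht with ht | ht
      · exact SR_up (hm t ht y hy hy') (le_max_left _ _)
      · exact SR_up (hn t ht y hy hy') (le_max_right _ _)
    · rintro x -
      obtain ⟨U, hU, m, hm⟩ := H.bound_loc hg hk hc₁ T₁ hT₁ hN hp x (hx x)
      exact ⟨U, mem_nhdsWithin_of_mem_nhds hU, m, hm⟩
  obtain ⟨m, hm⟩ := hind
  exact ⟨m, fun x => hm x (mem_univ x)⟩

/-- (C5) injectivity on the stable leaves -/
theorem Semi.stable_inj (H : Semi g k h) (hg : LP g c) {c' : ℝ} (hk : LP k c') (hc₁ : 0 < c₁)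
    (T₁ : IQS g c₁) (hT₁ : ∀ a s u x, T₁.Q a s u x → WS g a s ∧ WS g.symm a u ∧
      (h a = h s → h u = h x)) {p : X} {N : ℕ}
    (hN : 1 ≤ N) (hp : g^[N] p = p) (hx : ∀ x, ∃ u s, T₁.Q p s u x) {x y : X}
    (hxy : WS g x y) (he : h x = h y) : x = y := by
  obtain ⟨m, hm⟩ := H.bound hg hk hc₁ T₁ hT₁ hN hp hx
  have key : ∀ n : ℕ, SR g c (g^[m] (g.symm^[n] x)) (g^[m] (g.symm^[n] y)) := by
    intro n
    apply hm
    · apply (WS.iter n).mp
      rwa [iterR, iterR]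
    · rw [H.iter', H.iter', he]
  refine Pool.Agent.H789R2.GP.expansive hg ?_ ?_
  · have := key m
    rwa [iterR, iterR] at this
  · intro i
    have := key (m + i) 0
    simp only [Function.iterate_zero, id_eq] at this
    rwa [Function.iterate_add_apply, Function.iterate_add_apply, iterR, iterR] at this

/-- (C6) local injectivity -/
theorem Semi.local_inj (H : Semi g k h) (hg : LP g c) {c' : ℝ} (hk : LP k c') (hc₁ : 0 < c₁)
    (T₁ : IQS g c₁) (hT₁ : ∀ a s u x, T₁.Q a s u x → WS g a s ∧ WS g.symm a u ∧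
      (h a = h s → h u = h x)) {p : X} {N : ℕ}
    (hN : 1 ≤ N) (hp : g^[N] p = p) (hx : ∀ x, ∃ u s, T₁.Q p s u x) :
    ∃ δ > 0, ∀ x y, dist x y < δ → h x = h y → x = y := by
  obtain ⟨δ, hδ, h1⟩ := H.fib_close hg hk hg.c_pos
  exact ⟨δ, hδ, fun x y hxy he => H.stable_inj hg hk hc₁ T₁ hT₁ hN hp hx
    (WS.of_SR (hg.cS _ _ (h1 x y he hxy))) he⟩

/-- strips over a displacement in a fibre stay in the fibres -/
theorem Semi.strip_deg (H : Semi g k h) {c' : ℝ} (hk : LP k c')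
    {a s u x : X} (hQ : QJ g a s u x) (has : h a = h s) : h u = h x := by
  obtain ⟨Γ, e1, e2, e3, e4⟩ := hQ.strip
  have hf : Continuous fun t => (Γ t).fst := (qs_fst_cont g).comp Γ.continuous
  have hs : Continuous fun t => (Γ t).snd := (qs_snd_cont g).comp Γ.continuous
  have hval : ∀ {g' : X ≃ₜ X}, Continuous (SM.val : SM g' → X) := fun {g'} => by
    simpa using SM.continuous_iter_val (g := g') 0
  have hcl : IsClosed {t : I | h (Γ t).x = h (Γ t).y} :=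
    isClosed_eq (H.cont.comp (hval.comp hf)) (H.cont.comp (hval.comp hs))
  have hop : IsOpen {t : I | h (Γ t).x = h (Γ t).y} := by
    rw [isOpen_iff_mem_nhds]
    intro t₀ ht₀
    have ht₀' : h (Γ t₀).x = h (Γ t₀).y := ht₀
    obtain ⟨η₁, hη₁, hU⟩ := H.mapU (half_pos hk.c_pos)
    have hu := CompactSpace.uniformContinuous_of_continuous H.cont
    obtain ⟨η₂, hη₂, h2⟩ := Metric.uniformContinuous_iff.mp hu c' hk.c_pos
    -- forward times
    obtain ⟨n₁, hn₁⟩ := ((Pr.continuous_iff Γ).1 Γ.continuous).2.2 t₀ (η₂ / 2) (half_pos hη₂)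
    have hc1 : ∀ n : ℕ, Continuous fun t => k^[n] (h (Γ t).x) := fun n => by
      have : Continuous fun t => h (g^[n] (Γ t).x) :=
        H.cont.comp ((g.continuous.iterate n).comp (hval.comp hf))
      exact this.congr fun t => H.iter n _
    have hc2 : ∀ n : ℕ, Continuous fun t => k^[n] (h (Γ t).y) := fun n => by
      have : Continuous fun t => h (g^[n] (Γ t).y) :=
        H.cont.comp ((g.continuous.iterate n).comp (hval.comp hs))
      exact this.congr fun t => H.iter n _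
    have hfin : ∀ᶠ t in 𝓝 t₀, ∀ n ∈ Finset.range n₁,
        dist (k^[n] (h (Γ t).x)) (k^[n] (h (Γ t).y)) < c' := by
      rw [Filter.eventually_all_finset]
      intro n _
      have h3 : Tendsto (fun t => dist (k^[n] (h (Γ t).x)) (k^[n] (h (Γ t).y))) (𝓝 t₀)
          (𝓝 (dist (k^[n] (h (Γ t₀).x)) (k^[n] (h (Γ t₀).y)))) :=
        ((hc1 n).dist (hc2 n)).tendsto t₀
      rw [ht₀', dist_self] at h3
      exact (tendsto_order.mp h3).2 _ hk.c_pos
    have hf1 : ∀ᶠ t in 𝓝 t₀, dist (Γ t).fst (Γ t₀).fst < η₁ :=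
      (Metric.tendsto_nhds.mp (hf.tendsto t₀)) η₁ hη₁
    have hs1 : ∀ᶠ t in 𝓝 t₀, dist (Γ t).snd (Γ t₀).snd < η₁ :=
      (Metric.tendsto_nhds.mp (hs.tendsto t₀)) η₁ hη₁
    filter_upwards [hn₁, hfin, hf1, hs1] with t m1 m2 m3 m4
    refine Pool.Agent.H789R2.GP.expansive hk ?_ ?_
    · intro n
      rcases Nat.lt_or_ge n n₁ with hn | hn
      · exact (m2 n (Finset.mem_range.mpr hn)).le
      · have h3 := m1 n hn
        have h4 : dist (g^[n] (Γ t).x) (g^[n] (Γ t).y) < η₂ := by linarith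
        have h5 := h2 h4
        rw [H.iter, H.iter] at h5
        exact h5.le
    · have h3 : SR g.symm η₁ (Γ t).x (Γ t₀).x := (SM.dist_le _ _ hη₁.le).mp m3.le
      have h4 : SR g.symm η₁ (Γ t).y (Γ t₀).y := (SM.dist_le _ _ hη₁.le).mp m4.le
      have h5 := hU _ _ h3
      have h6 := hU _ _ h4
      rw [ht₀'] at h5
      have := h5.tr h6.symm'
      rwa [add_halves] at this
  have huniv := IsClopen.eq_univ ⟨hcl, hop⟩ ⟨0, by
    show h (Γ 0).x = h (Γ 0).y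
    rw [e1, e2, has]⟩
  have h1 : (1 : I) ∈ {t : I | h (Γ t).x = h (Γ t).y} := by rw [huniv]; trivial
  have h2 : h (Γ 1).x = h (Γ 1).y := h1
  rwa [e3, e4] at h2

end Pool.Agent.TH289.K
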