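import Pool.Agent.TH289.K.B2
import Pool.Agent.TH304.K289.J919
import Pool.Agent.TH304.K289.J920
import Pool.Agent.TH289.HomMain
import Pool.Agent.W740.TU.Sym
import Pool.Agent.TH553.K289.J918

set_option autoImplicit false
set_option linter.unusedSectionVars false

open Filter Topology Set Metric unitInterval
open scoped Manifold ContDiff

namespace Pool.Agent.TH289.K

open Pool.Agent.H721R2 Pool.Agent.H789R2.AN Pool.Agent.H789R2.GP
open Pool.Agent.TH289 (exists_sys_ev)
open Pool.Agent.W740.TU (UnstInj anosov_symm transitive_symm)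
open Pool.Agent.W740.TC (att_univ)
open Pool.Agent.TH304.K289.J919 (lf_of_gps)
open Pool.Agent.TH304.K289.J920 (gps_of_qs)

section symm

variable {M : Type*} [TopologicalSpace M]

theorem StablePath.congr {f : M ≃ₜ M} {α β : C(I, M)} (h : StablePath f α) (e : ∀ t, β t = α t) :
    StablePath f β := by
  intro 𝒰 h𝒰
  filter_upwards [h 𝒰 h𝒰] with n hn t
  rw [e, e]
  exact hn t

theorem GPS.symm {f : M ≃ₜ M} (h : GPS f) : GPS f.symm := by
  intro α β hα hβ h0
  obtain ⟨R, h1, h2, h3⟩ := h β α hβ hα h0.symm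
  refine ⟨R.comp ⟨Prod.swap, continuous_swap⟩, fun s => ?_, fun t => ?_, fun 𝒰 h𝒰 => ?_⟩
  · exact h2 s
  · exact h1 t
  · filter_upwards [h3 𝒰 h𝒰] with n hn s t
    exact ⟨(hn t s).2, (hn t s).1⟩

end symm

section abs

variable {X F : Type*} [MetricSpace X] [CompactSpace X] [NormedAddCommGroup F]
  [InnerProductSpace ℝ F] [FiniteDimensional ℝ F]
  {Y G : Type*} [MetricSpace Y] [CompactSpace Y] [NormedAddCommGroup G]
  [InnerProductSpace ℝ G] [FiniteDimensional ℝ G]

theorem gps_of_iqs {f g : X ≃ₜ X} {N : ℕ} (hN : 1 ≤ N) (hfg : g = iterHomeo f N) {c c₁ : ℝ}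
    (h : LP g c) (hc₁ : 0 < c₁) (T : IQS g c₁) : GPS f := by
  subst hfg
  exact gps_of_qs hN h hc₁ T.toQS T.itF T.itB

theorem inj_iter {f : X ≃ₜ X} {N : ℕ} (hN : 1 ≤ N) {h : X → Y} (hi : UnstInj f.symm h) :
    ∃ ε > 0, ∀ x y, SR (iterHomeo f N).symm ε x y → h x = h y → x = y := by
  obtain ⟨𝒰, h𝒰, h1⟩ := hi
  rw [nhdsSet_diagonal_eq_uniformity, Metric.mem_uniformity_dist] at h𝒰
  obtain ⟨ε, hε, h2⟩ := h𝒰
  obtain ⟨η, hη, h3⟩ := T1_unif f.symm N hε
  refine ⟨η / 2, half_pos hη, fun x y hxy he => h1 x y (fun n => h2 ?_) he⟩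
  have hnn : n = n % N + N * (n / N) := (Nat.mod_add_div n N).symm
  rw [hnn, Function.iterate_add_apply, Function.iterate_add_apply]
  refine h3 (n % N) (Nat.mod_lt _ (by omega)).le _ _ ?_
  have h4 := hxy (n / N)
  rw [iterHomeo_symm_iter, iterHomeo_symm_iter] at h4
  exact lt_of_le_of_lt h4 (half_lt_self hη)

/-- the quadrilateral structure of an Anosov homeomorphism with global product structure -/
theorem iqs_of_gps {f g : X ≃ₜ X} {N : ℕ} (hN : 1 ≤ N) (hfg : g = iterHomeo f N) {c : ℝ}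
    (h : LP g c) (hX : ULC X) (hG : GPS f) : ∃ c₁ > 0, Nonempty (IQS g c₁) := by
  subst hfg
  exact exists_IQS h hX (lf_of_gps hN h hX hG)

theorem trans_of_iqs [ConnectedSpace X] {f g : X ≃ₜ X} {N : ℕ} (hfg : g = iterHomeo f N) {c c₁ : ℝ}
    (h : LP g c) (hc₁ : 0 < c₁) (T : IQS g c₁) : TopTransitive f := by
  subst hfg
  intro U V hU hUn hV hVn
  obtain ⟨n, hn⟩ := transitive_of_unique h (att_univ h hc₁ T.toQS) U V hU hUn hV hVn
  refine ⟨N * n, ?_⟩
  have e1 : (iterHomeo f N)^[n] = f^[N * n] := funext fun z => iterHomeo_iter f N n z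
  rwa [← e1]

theorem asym_symm' {X : Type*} [MetricSpace X] [CompactSpace X] {f : X ≃ₜ X} {N : ℕ} (hN : 1 ≤ N)
    (x y : X) : WS (iterHomeo f N).symm x y ↔ Asym f.symm x y := by
  rw [iterHomeo_symm, WS_iter_iff f.symm hN, asym_iff f.symm]

/-- Abstract form: semiconjugacies from an Anosov homeomorphism with global product structure to an
expansive homeomorphism. -/
theorem abs_exp {E : Type*} [NormedAddCommGroup E]
    [NormedSpace ℝ E] [ProperSpace E] [ChartedSpace E X] [ConnectedSpace X]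
    (S : HypSys X F) {f : X ≃ₜ X} {f' : Y ≃ₜ Y} {N : ℕ} (hN : 1 ≤ N)
    (hf : S.g = iterHomeo f N) {h : X → Y}
    (H : SC f f' h) {e : ℝ} (he0 : 0 < e) (hexp : Exp (iterHomeo f' N) e) (hG : GPS f) {p : X}
    (hp : p ∈ Function.periodicPts f)
    (hfin : (h ⁻¹' {h p} ∩ {y | Asym f p y ∨ Asym f.symm p y}).Finite) :
    ∃ δ > 0, ∀ x y, dist x y < δ → h x = h y → x = y := by
  obtain ⟨c, hg⟩ := exists_LP S
  have hX : ULC X := ulc_of_charted (X := X) (E := E)
  obtain ⟨c₁, hc₁, ⟨T₁⟩⟩ := iqs_of_gps hN hf hg hX hG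
  obtain ⟨q, hq, hqp⟩ := hp
  have hqp' : f^[q] p = p := hqp
  have H' : SC S.g (iterHomeo f' N) h := ⟨H.cont, fun x => by
    rw [hf]
    exact H.iter N x⟩
  have hpN : S.g^[q] p = p := by
    rw [hf, iterHomeo_iter, Nat.mul_comm, Function.iterate_mul]
    exact Function.iterate_fixed hqp' N
  have hhp : f'^[q] (h p) = h p := by
    rw [← H.iter, hqp']
  -- points of the fibre asymptotic to `p`
  have key : ∀ φ : X ≃ₜ X, φ^[q] p = p → (∀ y, WS φ p y → h y = h p →
      h (φ^[q] y) = h p) → (∀ y, WS φ p y → h y = h p →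
      y ∈ h ⁻¹' {h p} ∩ {y | Asym f p y ∨ Asym f.symm p y}) →
      ∀ y, WS φ p y → h p = h y → y = p := by
    intro φ h1 h2 h3 y hy he
    have hit : ∀ n : ℕ, WS φ p (φ^[q * n] y) ∧ h (φ^[q * n] y) = h p := by
      intro n
      induction n with
      | zero => exact ⟨hy, he.symm⟩
      | succ n ih =>
        rw [Nat.mul_succ, Nat.add_comm, Function.iterate_add_apply]
        refine ⟨?_, h2 _ ih.1 ih.2⟩
        have := (WS.iter (g := φ) q).mpr ih.1
        rwa [h1] at this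
    have hmaps : ∀ n : ℕ, φ^[q * n] y ∈ h ⁻¹' {h p} ∩ {y | Asym f p y ∨ Asym f.symm p y} :=
      fun n => h3 _ (hit n).1 (hit n).2
    obtain ⟨m, n, hmn, hmn2⟩ : ∃ m n : ℕ, m < n ∧ φ^[q * m] y = φ^[q * n] y := by
      by_contra hcon
      push Not at hcon
      have hinj : Function.Injective fun n : ℕ => φ^[q * n] y := by
        intro m n hmn
        rcases lt_trichotomy m n with h' | h' | h'
        · exact absurd hmn (hcon m n h')
        · exact h'
        · exact absurd hmn.symm (hcon n m h')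
      exact (Set.infinite_of_injective_forall_mem hinj hmaps) hfin
    obtain ⟨d, rfl⟩ := Nat.exists_eq_add_of_lt hmn
    have hper : φ^[q * (d + 1)] y = y := by
      apply φ.injective.iterate (q * m)
      rw [← Function.iterate_add_apply, ← Nat.mul_add, ← Nat.add_assoc]
      exact hmn2.symm
    have hperp : φ^[q * (d + 1)] p = p := by
      rw [Function.iterate_mul]
      exact Function.iterate_fixed h1 _
    have hlim : Tendsto (fun n : ℕ => dist (φ^[q * (d + 1) * n] p) (φ^[q * (d + 1) * n] y)) atTop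
        (𝓝 0) := by
      have h5 : Tendsto (fun n : ℕ => q * (d + 1) * n) atTop atTop :=
        tendsto_id.const_mul_atTop' (by positivity)
      exact hy.comp h5
    have hconst : (fun n : ℕ => dist (φ^[q * (d + 1) * n] p) (φ^[q * (d + 1) * n] y)) =
        fun _ => dist p y := by
      funext n
      rw [Function.iterate_mul φ (q * (d + 1)) n, Function.iterate_fixed hperp,
        Function.iterate_fixed hper]
    rw [hconst] at hlim
    have h6 := tendsto_nhds_unique hlim tendsto_const_nhds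
    exact (dist_eq_zero.mp h6.symm).symm
  have hpf : f.symm^[q] p = p := by
    have := iterL f q p
    rwa [hqp'] at this
  have hhp' : f'.symm^[q] (h p) = h p := by
    have := iterL f' q (h p)
    rwa [hhp] at this
  refine H'.local_inj hg hX hc₁ T₁ he0 hexp hq hpN ?_ ?_
  · intro y hy he
    refine key f hqp' ?_ ?_ y ?_ he
    · intro z _ hz
      rw [H.iter, hz, hhp]
    · intro z hz1 hz2
      exact ⟨hz2, Or.inl ((asym_iff f p z).mpr hz1)⟩
    · rw [hf] at hy
      exact (WS_iter_iff f hN p y).mp hy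
  · intro y hy he
    refine key f.symm hpf ?_ ?_ y ?_ he
    · intro z _ hz
      rw [H.iter', hz, hhp']
    · intro z hz1 hz2
      exact ⟨hz2, Or.inr ((asym_iff f.symm p z).mpr hz1)⟩
    · rw [hf, iterHomeo_symm] at hy
      exact (WS_iter_iff f.symm hN p y).mp hy

/-- Abstract form: semiconjugacies that are injective on the local unstable sets. -/
theorem abs_main {E : Type*} [NormedAddCommGroup E]
    [NormedSpace ℝ E] [ProperSpace E] [ChartedSpace E X] [ConnectedSpace X]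
    {E' : Type*} [NormedAddCommGroup E'] [NormedSpace ℝ E'] [ProperSpace E'] [ChartedSpace E' Y]
    (S : HypSys X F) (S' : HypSys Y G) {f : X ≃ₜ X} {f' : Y ≃ₜ Y} {N : ℕ} (hN : 1 ≤ N)
    (hf : S.g = iterHomeo f N) (hf' : S'.g = iterHomeo f' N) {h : X → Y}
    (H : Semi S.g S'.g h) (hG : GPS f ∨ GPS f') :
    TopTransitive f ∧ GPS f ∧ (∃ π : E → X, IsCoveringMap π) ∧
      ∃ δ > 0, ∀ x y, dist x y < δ → h x = h y → x = y := by
  obtain ⟨c, hg⟩ := exists_LP S
  obtain ⟨c', hk⟩ := exists_LP S'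
  have hX : ULC X := ulc_of_charted (X := X) (E := E)
  have hY : ULC Y := ulc_of_charted (X := Y) (E := E')
  obtain ⟨c₁, hc₁, ⟨T₁⟩⟩ : ∃ c₁ > 0, Nonempty (IQS S.g c₁) := by
    rcases hG with hG | hG
    · exact iqs_of_gps hN hf hg hX hG
    · obtain ⟨c₂, hc₂, ⟨T⟩⟩ := iqs_of_gps hN hf' hk hY hG
      obtain ⟨c₁, hc₁, -, T₁, -⟩ := H.exists_IQS hX hg hk hc₂ T
      exact ⟨c₁, hc₁, ⟨T₁⟩⟩
  obtain ⟨q, hq, p, hp⟩ := S.exists_periodic
  have H' : SC S.g S'.g h := ⟨H.cont, H.comm⟩
  refine ⟨trans_of_iqs hf hg hc₁ T₁, gps_of_iqs hN hf hg hc₁ T₁,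
    exists_covering hg hc₁ T₁.toQS p q hq hp,
    H'.local_inj hg hX hc₁ T₁ hk.c_pos (fun x y h1 h2 => Pool.Agent.H789R2.GP.expansive hk h1 h2)
      hq hp (fun y hy he => H.fib_per hg hk hq hp hy he)
      (fun y hy he => (H.leaf_inj hy he).symm)⟩

end abs



end Pool.Agent.TH289.K
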