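import Pool.Agent.TH289.K.A6

set_option autoImplicit false
set_option linter.unusedSectionVars false

open Filter Topology Set Metric
open scoped Manifold ContDiff

namespace Pool.Agent.TH289.K

open Pool.Agent.H721R2 Pool.Agent.H789R2.AN Pool.Agent.H789R2.GP
open Pool.Agent.TH289 (exists_sys_ev)
open Pool.Agent.W740.TU (UnstInj anosov_symm transitive_symm)

section manifold

variable {E : Type*} [NormedAddCommGroup E] [NormedSpace ℝ E] [FiniteDimensional ℝ E]
  {M : Type*} [TopologicalSpace M] [T2Space M] [CompactSpace M] [ConnectedSpace M]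
  [ChartedSpace E M] [IsManifold 𝓘(ℝ, E) ∞ M]
  {E' : Type*} [NormedAddCommGroup E'] [NormedSpace ℝ E'] [FiniteDimensional ℝ E']
  {M' : Type*} [TopologicalSpace M'] [T2Space M'] [CompactSpace M']
  [ChartedSpace E' M'] [IsManifold 𝓘(ℝ, E') ∞ M']

/-- **Main theorem**, unstable form. -/
theorem man_unst (f : Diffeomorph 𝓘(ℝ, E) 𝓘(ℝ, E) M M 1)
    (Es Eu : ∀ x : M, Submodule ℝ (TangentSpace 𝓘(ℝ, E) x)) (hA : IsAnosov f Es Eu)
    (g : Diffeomorph 𝓘(ℝ, E') 𝓘(ℝ, E') M' M' 1)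
    (Es' Eu' : ∀ x : M', Submodule ℝ (TangentSpace 𝓘(ℝ, E') x)) (hB : IsAnosov g Es' Eu')
    (h : M → M') (hc : Continuous h) (hh : ∀ x, h (f x) = g (h x))
    (hi : UnstInj f.symm h) (hG : GPS f.toHomeomorph ∨ GPS g.toHomeomorph) :
    TopTransitive f ∧ GPS f.toHomeomorph ∧ (∃ π : E → M, IsCoveringMap π ∧ Function.Surjective π) ∧
      ∀ x, ∃ U ∈ 𝓝 x, InjOn h U := by
  obtain ⟨m, ee, hee, hemb, hinje⟩ :=
    exists_embedding_euclidean_of_compact (I := 𝓘(ℝ, E)) (M := M)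
  obtain ⟨m', ee', hee', hemb', hinje'⟩ :=
    exists_embedding_euclidean_of_compact (I := 𝓘(ℝ, E')) (M := M')
  let _ : MetricSpace M := hemb.isEmbedding.comapMetricSpace ee
  let _ : MetricSpace M' := hemb'.isEmbedding.comapMetricSpace ee'
  have hiso : ∀ x y : M, dist x y = ‖ee x - ee y‖ := fun x y => dist_eq_norm (ee x) (ee y)
  have hiso' : ∀ x y : M', dist x y = ‖ee' x - ee' y‖ := fun x y => dist_eq_norm (ee' x) (ee' y)
  have he1 : ContMDiff 𝓘(ℝ, E) (𝓡 m) 1 ee := hee.of_le (by simp)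
  have he1' : ContMDiff 𝓘(ℝ, E') (𝓡 m') 1 ee' := hee'.of_le (by simp)
  obtain ⟨N, ⟨⟨S, hg, -, -, -⟩, ⟨S', hg', -, -, -⟩⟩, hN⟩ :=
    (((exists_sys_ev hiso he1 hinje f Es Eu hA).and
      (exists_sys_ev hiso' he1' hinje' g Es' Eu' hB)).and (eventually_ge_atTop 1)).exists
  have : ProperSpace E := FiniteDimensional.proper_real E
  have : ProperSpace E' := FiniteDimensional.proper_real E'
  have hSemi : Semi S.g S'.g h := by
    refine ⟨hc, fun x => ?_, ?_⟩
    · rw [hg, hg']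
      exact (Function.Semiconj.iterate_right (f := h) (ga := f) (gb := g) hh N) x
    · rw [hg]
      exact inj_iter hN hi
  obtain ⟨h1, h2, ⟨π, hπ⟩, δ, hδ, h3⟩ := abs_main (E := E) (E' := E') S S' hN hg hg' hSemi hG
  refine ⟨h1, h2, ⟨π, hπ, covering_surj hπ⟩, fun x => ⟨ball x (δ / 2), ball_mem_nhds _
    (half_pos hδ), fun y hy z hz hyz => h3 y z ?_ hyz⟩⟩
  have := dist_triangle_right y z x
  rw [mem_ball] at hy hz
  linarith

/-- **Main theorem.** -/
theorem man_main (f : Diffeomorph 𝓘(ℝ, E) 𝓘(ℝ, E) M M 1)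
    (Es Eu : ∀ x : M, Submodule ℝ (TangentSpace 𝓘(ℝ, E) x)) (hA : IsAnosov f Es Eu)
    (g : Diffeomorph 𝓘(ℝ, E') 𝓘(ℝ, E') M' M' 1)
    (Es' Eu' : ∀ x : M', Submodule ℝ (TangentSpace 𝓘(ℝ, E') x)) (hB : IsAnosov g Es' Eu')
    (h : M → M') (hc : Continuous h) (hh : ∀ x, h (f x) = g (h x))
    (hi : UnstInj f.symm h ∨ UnstInj f h) (hG : GPS f.toHomeomorph ∨ GPS g.toHomeomorph) :
    TopTransitive f ∧ GPS f.toHomeomorph ∧ (∃ π : E → M, IsCoveringMap π ∧ Function.Surjective π) ∧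
      ∀ x, ∃ U ∈ 𝓝 x, InjOn h U := by
  rcases hi with hi | hi
  · exact man_unst f Es Eu hA g Es' Eu' hB h hc hh hi hG
  · have hh' : ∀ x, h (f.symm x) = g.symm (h x) := by
      intro x
      apply g.toHomeomorph.injective
      have h1 := hh (f.symm x)
      rw [f.apply_symm_apply] at h1
      exact h1.symm.trans (g.apply_symm_apply (h x)).symm
    obtain ⟨h1, h2, h3, h4⟩ := man_unst f.symm Eu Es (anosov_symm f Es Eu hA) g.symm Eu' Es'
      (anosov_symm g Es' Eu' hB) h hc hh' hi (hG.imp (fun h => show GPS f.toHomeomorph.symm from GPS.symm h)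
        (fun h => show GPS g.toHomeomorph.symm from GPS.symm h))
    exact ⟨transitive_symm f.toHomeomorph h1,
      GPS.symm (show GPS f.toHomeomorph.symm from h2), h3, h4⟩

end manifold

end Pool.Agent.TH289.K
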