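import Pool.Agent.TH289.K.Def
import Pool.Agent.TH289.K.A2

set_option autoImplicit false
set_option linter.unusedSectionVars false

open Filter Topology Set Metric unitInterval

namespace Pool.Agent.TH289.K

variable {X Y : Type*} [MetricSpace X] [CompactSpace X] [MetricSpace Y]

/-- paths with small images are small -/
theorem path_small_of_locInj {h : X → Y} (hc : Continuous h)
    (hloc : ∃ δ > 0, ∀ x y, dist x y < δ → h x = h y → x = y) {ε : ℝ} (hε : 0 < ε) :
    ∃ ρ > 0, ∀ γ : C(I, X), (∀ t, dist (h (γ 0)) (h (γ t)) < ρ) → ∀ t, dist (γ 0) (γ t) < ε := by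
  obtain ⟨δ, hδ, hinj⟩ := hloc
  set e := min ε (δ / 2) with he
  have he0 : 0 < e := by positivity
  set K : Set (X × X) := {p | dist p.1 p.2 = e} with hK
  have hKc : IsCompact K := (isClosed_eq (by fun_prop) continuous_const).isCompact
  obtain ⟨ρ, hρ, hmin⟩ : ∃ m > 0, ∀ p ∈ K, m ≤ dist (h p.1) (h p.2) := by
    rcases K.eq_empty_or_nonempty with h0 | h0
    · exact ⟨1, one_pos, fun p hp => by rw [h0] at hp; exact absurd hp (notMem_empty _)⟩
    · have hcont : ContinuousOn (fun p : X × X => dist (h p.1) (h p.2)) K :=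
        (((hc.comp continuous_fst).dist (hc.comp continuous_snd))).continuousOn
      obtain ⟨p, hp, hp2⟩ := hKc.exists_isMinOn h0 hcont
      refine ⟨dist (h p.1) (h p.2), ?_, fun q hq => hp2 hq⟩
      rw [gt_iff_lt, dist_pos]
      intro h1
      have hp' : dist p.1 p.2 = e := hp
      have h2 := hinj p.1 p.2 (by
        rw [hp']
        exact (min_le_right _ _).trans_lt (half_lt_self hδ)) h1
      rw [h2, dist_self] at hp'
      linarith
  refine ⟨ρ, hρ, fun γ hγ t => ?_⟩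
  by_contra hcon
  push Not at hcon
  have hcont : Continuous fun t => dist (γ 0) (γ t) := continuous_const.dist γ.continuous
  have h1 : e ∈ (fun t => dist (γ 0) (γ t)) '' univ := by
    have h2 : IsPreconnected ((fun t => dist (γ 0) (γ t)) '' (univ : Set I)) :=
      isPreconnected_univ.image _ hcont.continuousOn
    refine h2.ordConnected.out ⟨0, trivial, rfl⟩ ⟨t, trivial, rfl⟩ ⟨?_, ?_⟩
    · simp only [dist_self]
      exact he0.le
    · exact (min_le_left _ _).trans hcon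
  obtain ⟨t', -, ht'⟩ := h1
  have h2 := hmin (γ 0, γ t') ht'
  exact absurd (hγ t') (not_lt.mpr h2)

theorem stablePath_lift {f : X ≃ₜ X} {g : Y ≃ₜ Y} {h : X → Y} (hc : Continuous h)
    (hloc : ∃ δ > 0, ∀ x y, dist x y < δ → h x = h y → x = y)
    (hh : ∀ x, h (f x) = g (h x)) {γ : C(I, X)} {α : C(I, Y)} (hγ : ∀ t, h (γ t) = α t)
    (hα : StablePath g α) : StablePath f γ := by
  intro 𝒰 h𝒰
  rw [nhdsSet_diagonal_eq_uniformity, Metric.mem_uniformity_dist] at h𝒰
  obtain ⟨ε, hε, h2⟩ := h𝒰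
  obtain ⟨ρ, hρ, h3⟩ := path_small_of_locInj hc hloc hε
  have h4 : {p : Y × Y | dist p.1 p.2 < ρ} ∈ 𝓝ˢ (diagonal Y) := by
    rw [mem_nhdsSet_iff_forall]
    rintro ⟨a, b⟩ hab
    rw [mem_diagonal_iff] at hab
    simp only at hab
    subst hab
    refine IsOpen.mem_nhds (isOpen_lt (by fun_prop) continuous_const) ?_
    show dist a a < ρ
    rwa [dist_self]
  filter_upwards [hα _ h4] with n hn t
  refine h2 ?_
  have hit : ∀ x, h (f^[n] x) = g^[n] (h x) := fun x =>
    (Function.Semiconj.iterate_right (f := h) (ga := f) (gb := g) hh n) x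
  refine h3 ⟨fun t => f^[n] (γ t), (f.continuous.iterate n).comp γ.continuous⟩ (fun t => ?_) t
  show dist (h (f^[n] (γ 0))) (h (f^[n] (γ t))) < ρ
  rw [hit, hit, hγ, hγ]
  exact hn t

/-- Global product structure descends to finite quotients. -/
theorem gps_of_cover {f : X ≃ₜ X} {g : Y ≃ₜ Y} {h : X → Y} (hcov : IsCoveringMap h)
    (hs : Function.Surjective h) (hloc : ∃ δ > 0, ∀ x y, dist x y < δ → h x = h y → x = y)
    (hh : ∀ x, h (f x) = g (h x)) (hG : GPS f) : GPS g := by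
  intro α β hα hβ h0
  have hc : Continuous h := hcov.continuous
  obtain ⟨x₀, hx₀⟩ := hs (α 0)
  have hh' : ∀ x, h (f.symm x) = g.symm (h x) := by
    intro x
    apply g.injective
    rw [← hh, f.apply_symm_apply, g.apply_symm_apply]
  obtain ⟨γ, hγ0, hγ⟩ : ∃ γ : C(I, X), γ 0 = x₀ ∧ ∀ t, h (γ t) = α t := by
    have := hcov.exists_path_lifts α x₀ hx₀.symm
    obtain ⟨γ, h1, h2⟩ := this
    exact ⟨γ, h2, fun t => congrFun h1 t⟩
  obtain ⟨η, hη0, hη⟩ : ∃ η : C(I, X), η 0 = x₀ ∧ ∀ t, h (η t) = β t := by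
    have := hcov.exists_path_lifts β x₀ (h0.symm.trans hx₀.symm)
    obtain ⟨γ, h1, h2⟩ := this
    exact ⟨γ, h2, fun t => congrFun h1 t⟩
  obtain ⟨R, h1, h2, h3⟩ := hG γ η (stablePath_lift hc hloc hh hγ hα)
    (stablePath_lift hc hloc hh' hη hβ) (hγ0.trans hη0.symm)
  refine ⟨⟨fun p => h (R p), hc.comp R.continuous⟩, fun s => ?_, fun t => ?_, fun 𝒰 h𝒰 => ?_⟩
  · show h (R (s, 0)) = α s
    rw [h1, hγ]
  · show h (R (0, t)) = β t
    rw [h2, hη]
  · have h4 : Prod.map h h ⁻¹' 𝒰 ∈ 𝓝ˢ (diagonal X) := by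
      rw [mem_nhdsSet_iff_forall] at h𝒰 ⊢
      rintro ⟨a, b⟩ hab
      rw [mem_diagonal_iff] at hab
      simp only at hab
      subst hab
      exact (hc.prodMap hc).continuousAt.preimage_mem_nhds (h𝒰 (h a, h a) rfl)
    filter_upwards [h3 _ h4] with n hn s t
    have hit : ∀ x, h (f^[n] x) = g^[n] (h x) := fun x =>
      (Function.Semiconj.iterate_right (f := h) (ga := f) (gb := g) hh n) x
    have hit' : ∀ x, h (f.symm^[n] x) = g.symm^[n] (h x) := fun x =>
      (Function.Semiconj.iterate_right (f := h) (ga := f.symm) (gb := g.symm) hh' n) x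
    have h5 : (h (f^[n] (R (0, t))), h (f^[n] (R (s, t)))) ∈ 𝒰 := (hn s t).1
    have h6 : (h (f.symm^[n] (R (s, 0))), h (f.symm^[n] (R (s, t)))) ∈ 𝒰 := (hn s t).2
    rw [hit, hit] at h5
    rw [hit', hit'] at h6
    exact ⟨h5, h6⟩

end Pool.Agent.TH289.K
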