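import Pool.Agent.TH289.K.A7
import Pool.Agent.TH289.K.A8

set_option autoImplicit false
set_option linter.unusedSectionVars false

open Filter Topology Set Metric
open scoped Manifold ContDiff

namespace Pool.Agent.TH289.K

open Pool.Agent.H721R2 Pool.Agent.H789R2.AN Pool.Agent.H789R2.GP
open Pool.Agent.W740.TU (UnstInj)

variable {E : Type*} [NormedAddCommGroup E] [NormedSpace ℝ E] [FiniteDimensional ℝ E]
  {M : Type*} [TopologicalSpace M] [T2Space M] [CompactSpace M] [ConnectedSpace M]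
  [ChartedSpace E M] [IsManifold 𝓘(ℝ, E) ∞ M]
  {E' : Type*} [NormedAddCommGroup E'] [NormedSpace ℝ E'] [FiniteDimensional ℝ E']
  {M' : Type*} [TopologicalSpace M'] [T2Space M'] [CompactSpace M'] [ConnectedSpace M']
  [ChartedSpace E' M'] [IsManifold 𝓘(ℝ, E') ∞ M']

/-- an Anosov diffeomorphism with global product structure is transitive, and its manifold is
covered by Euclidean space -/
theorem man_self (f : Diffeomorph 𝓘(ℝ, E) 𝓘(ℝ, E) M M 1)
    (Es Eu : ∀ x : M, Submodule ℝ (TangentSpace 𝓘(ℝ, E) x)) (hA : IsAnosov f Es Eu)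
    (hG : GPS f.toHomeomorph) :
    TopTransitive f ∧ ∃ π : E → M, IsCoveringMap π ∧ Function.Surjective π := by
  obtain ⟨h1, -, h2, -⟩ := man_unst f Es Eu hA f Es Eu hA id continuous_id (fun _ => rfl)
    ⟨univ, univ_mem, fun x y _ h => h⟩ (Or.inl hG)
  exact ⟨h1, h2⟩

/-- The covering form. -/
theorem man_cover (f : Diffeomorph 𝓘(ℝ, E) 𝓘(ℝ, E) M M 1)
    (Es Eu : ∀ x : M, Submodule ℝ (TangentSpace 𝓘(ℝ, E) x)) (hA : IsAnosov f Es Eu)
    (g : Diffeomorph 𝓘(ℝ, E') 𝓘(ℝ, E') M' M' 1)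
    (Es' Eu' : ∀ x : M', Submodule ℝ (TangentSpace 𝓘(ℝ, E') x)) (hB : IsAnosov g Es' Eu')
    (h : M → M') (hc : Continuous h) (hh : ∀ x, h (f x) = g (h x))
    (hi : UnstInj f.symm h ∨ UnstInj f h) (hG : GPS f.toHomeomorph ∨ GPS g.toHomeomorph)
    (hdim : Module.finrank ℝ E' ≤ Module.finrank ℝ E) :
    IsCoveringMap h ∧ Function.Surjective h ∧ (∀ y, (h ⁻¹' {y}).Finite) ∧
      GPS g.toHomeomorph ∧ TopTransitive g ∧ ∃ π : E' → M', IsCoveringMap π ∧
        Function.Surjective π := by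
  obtain ⟨h1, h2, h3, h4⟩ := man_main f Es Eu hA g Es' Eu' hB h hc hh hi hG
  obtain ⟨k1, k2, k3⟩ := Pool.Agent.TH553.K289.covering_of_locInj hdim hc h4
  have hG' : GPS g.toHomeomorph := by
    obtain ⟨m, ee, hee, hemb, hinje⟩ :=
      exists_embedding_euclidean_of_compact (I := 𝓘(ℝ, E)) (M := M)
    obtain ⟨m', ee', hee', hemb', hinje'⟩ :=
      exists_embedding_euclidean_of_compact (I := 𝓘(ℝ, E')) (M := M')
    let _ : MetricSpace M := hemb.isEmbedding.comapMetricSpace ee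
    let _ : MetricSpace M' := hemb'.isEmbedding.comapMetricSpace ee'
    refine gps_of_cover (f := f.toHomeomorph) (g := g.toHomeomorph) k1 k2 ?_ hh h2
    -- uniform local injectivity
    have hcomp : IsCompact (univ : Set M) := isCompact_univ
    obtain ⟨δ, hδ, hleb⟩ := lebesgue_number_lemma_of_metric hcomp
      (c := fun x : M => interior (h4 x).choose) (fun x => isOpen_interior)
      (fun x _ => mem_iUnion.mpr ⟨x, mem_interior_iff_mem_nhds.mpr (h4 x).choose_spec.1⟩)
    refine ⟨δ, hδ, fun x y hxy he => ?_⟩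
    obtain ⟨i, hi⟩ := hleb x (mem_univ x)
    exact (h4 i).choose_spec.2 (interior_subset (hi (mem_ball_self hδ)))
      (interior_subset (hi (by rw [mem_ball, dist_comm]; exact hxy))) he
  obtain ⟨l1, l2⟩ := man_self g Es' Eu' hB hG'
  exact ⟨k1, k2, k3, hG', l1, l2⟩

end Pool.Agent.TH289.K
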