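import Pool.Agent.TH289.K.A5

set_option autoImplicit false
set_option linter.unusedSectionVars false

open Filter Topology Set Metric unitInterval

namespace Pool.Agent.TH289.K

open Pool.Agent.H789R2.AN Pool.Agent.H789R2.GP
open Pool.Agent.W740.TC (SR_of_dist)
open Pool.Agent.W740.TC.Coc (isClosed_SR)

section iqs

variable {X : Type*} [MetricSpace X] {g : X ≃ₜ X} {c c₁ : ℝ}

theorem IQS.ws (T : IQS g c₁) {a s u x : X} (h : T.Q a s u x) : WS g a s :=
  T.wS _ _ _ _ (T.flipU _ _ _ _ h)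

theorem IQS.wu (T : IQS g c₁) {a s u x : X} (h : T.Q a s u x) : WS g.symm a u :=
  T.wU _ _ _ _ (T.flipS _ _ _ _ h)

/-- the structure for the inverse -/
def IQS.symm (T : IQS g c₁) : IQS g.symm c₁ where
  Q := fun a s u x => T.Q a u s x
  ex := fun a s u hs hu => T.ex a u s hu hs
  unique := fun a s u x x' h h' => T.unique _ _ _ _ _ h h'
  wS := fun a s u x h => T.wU _ _ _ _ h
  wU := fun a s u x h => T.wS _ _ _ _ h
  compU := fun a s u x u' x' h h' => T.compS _ _ _ _ _ _ h h'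
  compS := fun a s u x s' x' h h' => T.compU _ _ _ _ _ _ h h'
  flipU := fun a s u x h => T.flipS _ _ _ _ h
  flipS := fun a s u x h => T.flipU _ _ _ _ h
  tiny := by
    obtain ⟨ε, hε, h⟩ := T.tiny
    exact ⟨ε, hε, fun a s u x h1 h2 h3 h4 => h _ _ _ _ h2 h1 h4 h3⟩
  contS := fun j ε hε => by
    obtain ⟨η, hη, h⟩ := T.contU j ε hε
    exact ⟨η, hη, fun a s u x h1 h2 h3 => h _ _ _ _ h1 h2 h3⟩
  contU := fun j ε hε => by
    obtain ⟨η, hη, h⟩ := T.contS j ε hε
    exact ⟨η, hη, fun a s u x h1 h2 h3 => h _ _ _ _ h1 h2 h3⟩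
  itF := fun a s u x h => T.itB _ _ _ _ h
  itB := fun a s u x h => T.itF _ _ _ _ h

end iqs

/-- A semiconjugacy. -/
structure SC {X Y : Type*} [TopologicalSpace X] [TopologicalSpace Y] (g : X ≃ₜ X) (k : Y ≃ₜ Y)
    (h : X → Y) : Prop where
  cont : Continuous h
  comm : ∀ x, h (g x) = k (h x)

/-- `e` is an expansivity constant -/
def Exp {Y : Type*} [MetricSpace Y] (k : Y ≃ₜ Y) (e : ℝ) : Prop :=
  ∀ x y, SR k e x y → SR k.symm e x y → x = y

variable {X Y : Type*} [MetricSpace X] [MetricSpace Y] {g : X ≃ₜ X} {k : Y ≃ₜ Y}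
  {h : X → Y} {c c₁ c₂ : ℝ}

namespace SC

theorem symm (H : SC g k h) : SC g.symm k.symm h where
  cont := H.cont
  comm := fun x => by
    apply k.injective
    rw [← H.comm, g.apply_symm_apply, k.apply_symm_apply]

theorem iter (H : SC g k h) (n : ℕ) (x : X) : h (g^[n] x) = k^[n] (h x) := by
  induction n with
  | zero => rfl
  | succ n ih => rw [Function.iterate_succ_apply', Function.iterate_succ_apply', H.comm, ih]

theorem iter' (H : SC g k h) (n : ℕ) (x : X) : h (g.symm^[n] x) = k.symm^[n] (h x) :=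
  H.symm.iter n x

theorem mapS [CompactSpace X] (H : SC g k h) {ε : ℝ} (hε : 0 < ε) :
    ∃ δ > 0, ∀ x y, SR g δ x y → SR k ε (h x) (h y) := by
  have hu := CompactSpace.uniformContinuous_of_continuous H.cont
  obtain ⟨δ, hδ, h1⟩ := Metric.uniformContinuous_iff.mp hu ε hε
  refine ⟨δ / 2, half_pos hδ, fun x y hxy n => ?_⟩
  rw [← H.iter, ← H.iter]
  exact (h1 (lt_of_le_of_lt (hxy n) (half_lt_self hδ))).le

theorem mapU [CompactSpace X] (H : SC g k h) {ε : ℝ} (hε : 0 < ε) :
    ∃ δ > 0, ∀ x y, SR g.symm δ x y → SR k.symm ε (h x) (h y) := H.symm.mapS hε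

end SC

theorem Exp.symm {e : ℝ} (h : Exp k e) : Exp k.symm e := fun x y h1 h2 => h x y h2 h1

theorem SR_zero {X : Type*} [MetricSpace X] {g : X ≃ₜ X} {x : X} {ε : ℝ} (hε : 0 ≤ ε) :
    SR g ε x x := fun k => by rw [dist_self]; exact hε

/-- displacements inside fibres are preserved by sliding along stable leaves -/
theorem IQS.deg [CompactSpace X] (T : IQS g c₁) (hg : LP g c) (hc₁ : 0 < c₁) (hX : ULC X)
    (H : SC g k h) {e : ℝ} (he0 : 0 < e) (hexp : Exp k e) {a s u x : X} (hQ : T.Q a s u x)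
    (he : h a = h u) : h s = h x := by
  obtain ⟨υ, hυ0, hυ1⟩ := leaf_conn hg hX a s (T.ws hQ)
  have hυa : ∀ t, WS g a (υ t).val := fun t => by
    have := WS_of_path hg υ 0 t
    rwa [hυ0] at this
  have hex : ∀ t, ∃ y, T.Q a (υ t).val u y := fun t => T.ex _ _ _ (hυa t) (T.wu hQ)
  choose ξ hξ using hex
  have hcomp : ∀ t t', T.Q (υ t).val (υ t').val (ξ t) (ξ t') := fun t t' =>
    T.compS _ _ _ _ _ _ (T.flipS _ _ _ _ (hξ t)) (hξ t')
  -- the closeness of nearby displacements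
  have hcont : ∀ t : I, ∀ ε > 0, ∀ᶠ t' in 𝓝 t, SR g ε (υ t).val (υ t').val ∧
      SR g ε (ξ t) (ξ t') := by
    intro t ε hε
    obtain ⟨j, hj⟩ := (T.wU _ _ _ _ (hξ t)).level12 hc₁
    obtain ⟨η, hη, hη2⟩ := T.contS j ε hε
    have h1 : ∀ᶠ t' in 𝓝 t, dist (υ t') (υ t) < min η ε :=
      (Metric.tendsto_nhds.mp (υ.continuous.tendsto t)) _ (lt_min hη hε)
    filter_upwards [h1] with t' ht'
    have h4 : SR g (min η ε) (υ t).val (υ t').val := by
      rw [dist_comm] at ht'
      exact (SM.dist_le _ _ (lt_min hη hε).le).mp ht'.le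
    exact ⟨h4.mono (min_le_right _ _), hη2 _ _ _ _ (hcomp t t') (h4.mono (min_le_left _ _)) hj⟩
  have hcv : ∀ t : I, ∀ ε > 0, ∀ᶠ t' in 𝓝 t, dist (h (υ t).val) (h (υ t').val) ≤ ε ∧
      dist (h (ξ t)) (h (ξ t')) ≤ ε := by
    intro t ε hε
    obtain ⟨δ, hδ, h1⟩ := H.mapS hε
    filter_upwards [hcont t δ hδ] with t' ht'
    exact ⟨h1 _ _ ht'.1 0, h1 _ _ ht'.2 0⟩
  have hcl : IsClosed {t : I | h (υ t).val = h (ξ t)} := by
    have h1 : Continuous fun t => h (υ t).val := by
      rw [continuous_iff_continuousAt]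
      intro t
      rw [ContinuousAt, Metric.tendsto_nhds]
      intro ε hε
      filter_upwards [hcv t (ε / 2) (half_pos hε)] with t' ht'
      rw [dist_comm]
      exact lt_of_le_of_lt ht'.1 (half_lt_self hε)
    have h2 : Continuous fun t => h (ξ t) := by
      rw [continuous_iff_continuousAt]
      intro t
      rw [ContinuousAt, Metric.tendsto_nhds]
      intro ε hε
      filter_upwards [hcv t (ε / 2) (half_pos hε)] with t' ht'
      rw [dist_comm]
      exact lt_of_le_of_lt ht'.2 (half_lt_self hε)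
    exact isClosed_eq h1 h2
  have hop : IsOpen {t : I | h (υ t).val = h (ξ t)} := by
    rw [isOpen_iff_mem_nhds]
    intro t₀ ht₀
    have ht₀' : h (υ t₀).val = h (ξ t₀) := ht₀
    obtain ⟨d, hd, hdS⟩ := H.mapS (half_pos he0)
    obtain ⟨d', hd', hdU⟩ := H.mapU he0
    -- backward closeness at level `j`
    obtain ⟨κ, hκ, hlev⟩ := T.symm.level hg.symm hd'
    obtain ⟨j, hj⟩ := (T.wU _ _ _ _ (hξ t₀)).level12 hκ
    obtain ⟨η, hη, hlev2⟩ := hlev j
    -- finitely many backward times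
    have hfin : ∀ᶠ t in 𝓝 t₀, ∀ n ∈ Finset.range j,
        dist (k.symm^[n] (h (υ t).val)) (k.symm^[n] (h (ξ t))) ≤ e := by
      rw [Filter.eventually_all_finset]
      intro n _
      have hun : UniformContinuous (fun z => h (g.symm^[n] z)) :=
        CompactSpace.uniformContinuous_of_continuous
          (H.cont.comp (g.symm.continuous.iterate n))
      obtain ⟨δ, hδ, h1⟩ := Metric.uniformContinuous_iff.mp hun (e / 2) (half_pos he0)
      filter_upwards [hcont t₀ (δ / 2) (half_pos hδ)] with t ht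
      have h2 := h1 (lt_of_le_of_lt (ht.1 0) (half_lt_self hδ))
      have h3 := h1 (lt_of_le_of_lt (ht.2 0) (half_lt_self hδ))
      rw [H.iter', H.iter'] at h2 h3
      simp only [Function.iterate_zero, id_eq] at h2 h3
      rw [ht₀'] at h2
      have := dist_triangle_left (k.symm^[n] (h (υ t).val)) (k.symm^[n] (h (ξ t)))
        (k.symm^[n] (h (ξ t₀)))
      linarith
    filter_upwards [hcont t₀ (min d η) (lt_min hd hη), hfin] with t ht hft
    refine hexp _ _ ?_ ?_
    · have h1 := hdS _ _ (ht.1.mono (min_le_left _ _))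
      have h2 := hdS _ _ (ht.2.mono (min_le_left _ _))
      rw [ht₀'] at h1
      have := h1.symm'.tr h2
      rwa [add_halves] at this
    · intro n
      rcases Nat.lt_or_ge n j with hn | hn
      · exact hft n (Finset.mem_range.mpr hn)
      · -- the quadrilateral `Q (υ t₀) (υ t) (ξ t₀) (ξ t)` seen from the inverse
        have hq : T.symm.Q (υ t₀).val (ξ t₀) (υ t).val (ξ t) := hcomp t₀ t
        have h3 := hlev2 _ _ _ _ hq (ht.1.mono (min_le_right _ _)) hj
        have h4 := hdU _ _ h3 (n - j)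
        rw [H.iter', H.iter', ← Function.iterate_add_apply, ← Function.iterate_add_apply,
          Nat.sub_add_cancel hn] at h4
        exact h4
  have huniv := IsClopen.eq_univ ⟨hcl, hop⟩ ⟨0, by
    show h (υ 0).val = h (ξ 0)
    have h1 := hξ 0
    rw [hυ0] at h1
    rw [hυ0, T.unique _ _ _ _ _ h1 (qs_degU T.toQS (T.wu hQ))]
    exact he⟩
  have h1 : (1 : I) ∈ {t : I | h (υ t).val = h (ξ t)} := by rw [huniv]; trivial
  have h2 : h (υ 1).val = h (ξ 1) := h1
  have h3 := hξ 1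
  rw [hυ1] at h2 h3
  rwa [T.unique _ _ _ _ _ h3 hQ] at h2

end Pool.Agent.TH289.K
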