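import Pool.Agent.TH289.K.B1

set_option autoImplicit false
set_option linter.unusedSectionVars false

open Filter Topology Set Metric unitInterval

namespace Pool.Agent.TH289.K

open Pool.Agent.H789R2.AN Pool.Agent.H789R2.GP
open Pool.Agent.W740.TC (SR_of_dist)
open Pool.Agent.W740.TC.Coc (isClosed_SR)

variable {X Y : Type*} [MetricSpace X] [MetricSpace Y] [CompactSpace X] {g : X ≃ₜ X} {k : Y ≃ₜ Y}
  {h : X → Y} {c c₁ c₂ : ℝ}

/-- (C3) properness on the stable leaf of a periodic point that is isolated in its fibre along this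
leaf -/
theorem SC.proper_per (H : SC g k h) (hg : LP g c) {p : X} {N : ℕ}
    (hN : 1 ≤ N) (hp : g^[N] p = p) (hC2 : ∀ y, WS g p y → h p = h y → y = p)
    {ε : ℝ} (hε : 0 < ε) (hεc : ε ≤ c) :
    ∃ k₀ : ℕ, ∀ (m : ℕ) (x y : X), SR g c (g^[m] p) (g^[m] x) → WS g p y → h x = h y →
      SR g ε (g^[m + k₀] p) (g^[m + k₀] y) := by
  set P : Set X := {q | ∃ i < N, q = g^[i] p} with hP
  have hPfin : P.Finite := by
    have e : P = (fun i : ℕ => g^[i] p) '' (Finset.range N : Set ℕ) := by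
      ext q
      simp only [hP, Set.mem_ofPred_eq, Set.mem_image, Finset.coe_range, Set.mem_Iio]
      exact ⟨fun ⟨i, hi, hq⟩ => ⟨i, hi, hq.symm⟩, fun ⟨i, hi, hq⟩ => ⟨i, hi, hq.symm⟩⟩
    rw [e]
    exact (Finset.finite_toSet _).image _
  have hPm : ∀ n : ℕ, g^[n] p ∈ P := fun n => ⟨n % N, Nat.mod_lt _ hN, by
    have h1 : Function.IsPeriodicPt g N p := hp
    exact (h1.iterate_mod_apply n).symm⟩
  have hC2' : ∀ q ∈ P, ∀ y, WS g q y → h q = h y → y = q := by
    rintro q ⟨i, hi, rfl⟩ y hy he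
    have h1 : g^[N - i] (g^[i] p) = p := by
      rw [← Function.iterate_add_apply, Nat.sub_add_cancel hi.le, hp]
    have h2 : g^[N - i] y = p := by
      apply hC2
      · have := (WS.iter (N - i)).mpr hy
        rwa [h1] at this
      · have h3 : h (g^[N - i] (g^[i] p)) = h (g^[N - i] y) := by
          rw [H.iter (N - i) (g^[i] p), he, H.iter]
        rwa [h1] at h3
    apply (g.injective.iterate (N - i))
    rw [h1, h2]
  set K : Set (X × X) := (Prod.fst ⁻¹' P ∩ {q | SR g ε q.1 q.2}) ∩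
    {q | ε ≤ dist (g.symm q.1) (g.symm q.2)} with hK
  have hKc : IsCompact K := by
    refine IsClosed.isCompact (((hPfin.isClosed.preimage continuous_fst).inter
      (isClosed_SR g ε)).inter (isClosed_le continuous_const ?_))
    exact (g.symm.continuous.comp continuous_fst).dist (g.symm.continuous.comp continuous_snd)
  obtain ⟨m₀, hm₀, hmin⟩ : ∃ m₀ > 0, ∀ q ∈ K, m₀ ≤ dist (h q.1) (h q.2) := by
    rcases K.eq_empty_or_nonempty with h0 | h0
    · exact ⟨1, one_pos, fun p hp => by rw [h0] at hp; exact absurd hp (notMem_empty _)⟩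
    · have hcont : ContinuousOn (fun p : X × X => dist (h p.1) (h p.2)) K :=
        (((H.cont.comp continuous_fst).dist (H.cont.comp continuous_snd))).continuousOn
      obtain ⟨q, hq, hq2⟩ := hKc.exists_isMinOn h0 hcont
      refine ⟨dist (h q.1) (h q.2), ?_, fun q' hq' => hq2 hq'⟩
      rw [gt_iff_lt, dist_pos]
      intro h0
      have h1 : q.2 = q.1 := hC2' _ hq.1.1 _
        (WS.of_SR (hg.cS _ _ (SR.mono (show SR g ε q.1 q.2 from hq.1.2) hεc))) h0
      have h2 : ε ≤ dist (g.symm q.1) (g.symm q.2) := hq.2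
      rw [h1, dist_self] at h2
      linarith
  have hu := CompactSpace.uniformContinuous_of_continuous H.cont
  obtain ⟨δ, hδ, hunif⟩ := Metric.uniformContinuous_iff.mp hu m₀ hm₀
  obtain ⟨k₀, hk₀⟩ := exists_pow_lt (c := c) hδ
  refine ⟨k₀, fun m x y hx hy hxy => ?_⟩
  have hex : ∃ n, SR g ε (g^[n] p) (g^[n] y) := hy.level12 hε
  classical
  have hn := Nat.find_spec hex
  have hmin' := fun i (hi : i < Nat.find hex) => Nat.find_min hex hi
  set n := Nat.find hex
  rcases le_or_gt n (m + k₀) with hle | hgt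
  · exact SR_up hn hle
  · exfalso
    obtain ⟨j, hj⟩ := Nat.exists_eq_succ_of_ne_zero (show n ≠ 0 by omega)
    have h1 := hmin' j (by omega)
    have e1 : ∀ z : X, g.symm (g^[n] z) = g^[j] z := fun z => by
      rw [hj, Nat.succ_eq_add_one, Function.iterate_succ_apply' g, g.symm_apply_apply]
    have h2 : ε ≤ dist (g.symm (g^[n] p)) (g.symm (g^[n] y)) := by
      by_contra h3
      push Not at h3
      apply h1
      intro i
      rcases i with _ | i
      · rw [e1, e1] at h3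
        exact h3.le
      · have := hn i
        rw [hj, Nat.succ_eq_add_one, ← Function.iterate_add_apply,
          ← Function.iterate_add_apply] at this
        rw [← Function.iterate_add_apply, ← Function.iterate_add_apply]
        rwa [show i + 1 + j = i + (j + 1) by omega]
    have h3 := hmin (g^[n] p, g^[n] y) ⟨⟨hPm n, hn⟩, h2⟩
    simp only at h3
    have h4 := hg.cS _ _ hx (n - m)
    rw [← Function.iterate_add_apply, ← Function.iterate_add_apply,
      Nat.sub_add_cancel (by omega)] at h4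
    have h5 := hunif (h4.trans_lt (hk₀ (n - m) (by omega)))
    have h6 : h (g^[n] x) = h (g^[n] y) := by rw [H.iter, H.iter, hxy]
    rw [h6] at h5
    linarith

/-- (C4), local form -/
theorem SC.bound_loc (H : SC g k h) (hg : LP g c) (hc₁ : 0 < c₁)
    (T₁ : IQS g c₁) (hdeg : ∀ a s u x, T₁.Q a s u x → h a = h s → h u = h x) {p : X} {N : ℕ}
    (hN : 1 ≤ N) (hp : g^[N] p = p) (hC2 : ∀ y, WS g p y → h p = h y → y = p) (x₀ : X)
    (hx₀ : ∃ u s, T₁.Q p s u x₀) :
    ∃ U ∈ 𝓝 x₀, ∃ m : ℕ, ∀ x ∈ U, ∀ y, WS g x y → h x = h y →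
      SR g c (g^[m] x) (g^[m] y) := by
  have hc := hg.c_pos
  obtain ⟨u, s, hQ₀⟩ := hx₀
  have hs := T₁.ws hQ₀
  have hu := T₁.wu hQ₀
  -- step A
  obtain ⟨mS, hmS⟩ := hs.level12 (half_pos hc)
  -- step B
  have hxs : WS g.symm x₀ s := (T₁.wU _ _ _ _ hQ₀).symm'
  obtain ⟨jS, hjS⟩ := hxs.level12 hc₁
  obtain ⟨ηB, hηB, hB⟩ := T₁.contS jS (c / 2) (half_pos hc)
  -- step C
  obtain ⟨k₀, hk₀⟩ := H.proper_per hg hN hp hC2 (half_pos hc) (half_le_self hc.le)
  set m' := mS + k₀ with hm'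
  -- step D
  obtain ⟨m₁, hm₁⟩ : ∃ m₁ : ℕ, ∀ t, SR g (c / 2) (g^[m'] p) (g^[m'] t) → ∀ y, T₁.Q p t u y →
      SR g (c / 2) (g^[m₁] u) (g^[m₁] y) := by
    have hind : ∃ m₁ : ℕ, ∀ t ∈ (univ : Set X), SR g (c / 2) (g^[m'] p) (g^[m'] t) →
        ∀ y, T₁.Q p t u y → SR g (c / 2) (g^[m₁] u) (g^[m₁] y) := by
      refine isCompact_univ.induction_on (p := fun S : Set X => ∃ m₁ : ℕ, ∀ t ∈ S,
        SR g (c / 2) (g^[m'] p) (g^[m'] t) → ∀ y, T₁.Q p t u y →
        SR g (c / 2) (g^[m₁] u) (g^[m₁] y)) ?_ ?_ ?_ ?_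
      · exact ⟨0, fun t ht => absurd ht (notMem_empty t)⟩
      · rintro S S' hSS ⟨m, hm⟩
        exact ⟨m, fun t ht => hm t (hSS ht)⟩
      · rintro S S' ⟨m, hm⟩ ⟨n, hn⟩
        refine ⟨max m n, fun t ht ht' y hy => ?_⟩
        rcases ht with ht | ht
        · exact SR_up (hm t ht ht' y hy) (le_max_left _ _)
        · exact SR_up (hn t ht ht' y hy) (le_max_right _ _)
      · rintro t -
        by_cases ht : SR g (c / 2) (g^[m'] p) (g^[m'] t)
        · have hpt : WS g p t :=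
            (WS.iter m').mp (WS.of_SR (hg.cS _ _ (ht.mono (half_le_self hc.le))))
          obtain ⟨y, hy⟩ := T₁.ex p t u hpt hu
          obtain ⟨mt, hmt⟩ := (T₁.wS _ _ _ _ hy).level12 (show (0:ℝ) < c / 4 by linarith)
          obtain ⟨jt, hjt⟩ := (T₁.wU _ _ _ _ hy).level12 hc₁
          obtain ⟨η, hη, hη2⟩ := T₁.contS jt (c / 4) (by linarith)
          obtain ⟨δ, hδ, hδ2⟩ := SR_of_dist_level hg m' hη
          refine ⟨ball t δ, mem_nhdsWithin_of_mem_nhds (ball_mem_nhds t hδ), mt,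
            fun t' ht' hBt' y' hy' => ?_⟩
          have e1 : SR g η t t' := by
            refine hδ2 _ _ ?_ (by rw [dist_comm]; exact mem_ball.mp ht')
            have := ht.symm'.tr hBt'
            rwa [add_halves] at this
          have e2 : T₁.Q t t' y y' := T₁.compS _ _ _ _ _ _ (T₁.flipS _ _ _ _ hy) hy'
          have e3 := hη2 _ _ _ _ e2 e1 hjt
          have e4 := hmt.tr (e3.shift mt)
          exact e4.mono (by linarith)
        · -- the set is closed
          refine ⟨{t' | ¬ SR g (c / 2) (g^[m'] p) (g^[m'] t')}, ?_, 0,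
            fun t' ht' hBt' => absurd hBt' ht'⟩
          refine mem_nhdsWithin_of_mem_nhds (IsOpen.mem_nhds ?_ ht)
          have h1 : IsClosed {t' | SR g (c / 2) (g^[m'] p) (g^[m'] t')} :=
            (isClosed_SR g (c / 2)).preimage (continuous_const.prodMk (g.continuous.iterate m'))
          exact h1.isOpen_compl
    obtain ⟨m₁, h1⟩ := hind
    exact ⟨m₁, fun t ht => h1 t (mem_univ t) ht⟩
  -- step E
  obtain ⟨m₂, hm₂⟩ := (T₁.wS _ _ _ _ hQ₀).level12 (show (0:ℝ) < c / 4 by linarith)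
  obtain ⟨κ, hκ, hlev⟩ := T₁.level hg hc
  obtain ⟨n₀, hn₀⟩ := exists_pow_lt (c := c) hκ
  set m₃ := max m₁ m₂ with hm₃
  set j := m₃ + n₀ with hj
  obtain ⟨ηL, hηL, hlev2⟩ := hlev j
  obtain ⟨δ, hδ, hlp⟩ := hg.lp (min (min ηB (c / 4)) ηL) (by positivity)
  refine ⟨ball x₀ δ, ball_mem_nhds _ hδ, j, fun x hx y hxy hhxy => ?_⟩
  obtain ⟨w, hw1, hw2⟩ := hlp x₀ x (by rw [dist_comm]; exact mem_ball.mp hx)
  have n1 : min (min ηB (c / 4)) ηL ≤ ηB := (min_le_left _ _).trans (min_le_left _ _)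
  have n2 : min (min ηB (c / 4)) ηL ≤ c / 4 := (min_le_left _ _).trans (min_le_right _ _)
  have n3 : min (min ηB (c / 4)) ηL ≤ ηL := min_le_right _ _
  have hx₀w : WS g x₀ w := WS.of_SR (hg.cS _ _ (hw1.mono (by linarith)))
  have hxw : WS g.symm x w := WS.of_SR (hg.cU _ _ (hw2.mono (by linarith)))
  -- the slide of y
  obtain ⟨yw, hyw⟩ := T₁.ex x y w hxy hxw
  have hhw : h w = h yw := hdeg _ _ _ _ hyw hhxy
  -- the slide of w
  obtain ⟨sw, hsw⟩ := T₁.ex x₀ w s hx₀w hxs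
  have hQw : T₁.Q p sw u w := T₁.compS _ _ _ _ _ _ hQ₀ (T₁.flipU _ _ _ _ hsw)
  have hwyw : WS g w yw := T₁.wS _ _ _ _ hyw
  have hwsw : WS g.symm w sw := (T₁.wU _ _ _ _ hQw).symm'
  obtain ⟨sy, hsy⟩ := T₁.ex w yw sw hwyw hwsw
  have hQy : T₁.Q p sy u yw := T₁.compS _ _ _ _ _ _ hQw (T₁.flipU _ _ _ _ hsy)
  have hhs : h sw = h sy := hdeg _ _ _ _ hsy hhw
  -- the level of sw
  have a1 : SR g (c / 2) s sw := hB _ _ _ _ hsw (hw1.mono n1) hjS
  have a2 : SR g c (g^[mS] p) (g^[mS] sw) := by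
    have := hmS.tr (a1.shift mS)
    rwa [add_halves] at this
  have a4 := hk₀ mS sw sy a2 (T₁.ws hQy) hhs
  have a5 := hm₁ sy a4 yw hQy
  have a6 : SR g (c / 2) (g^[m₂] u) (g^[m₂] w) := by
    have := hm₂.tr ((hw1.mono n2).shift m₂)
    exact this.mono (by linarith)
  have a7 : SR g c (g^[m₃] w) (g^[m₃] yw) := by
    have := (SR_up a6 (le_max_right m₁ m₂)).symm'.tr (SR_up a5 (le_max_left m₁ m₂))
    rwa [add_halves] at this
  have a8 : SR g κ (g^[j] w) (g^[j] yw) := by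
    intro i
    have h1 := hg.cS _ _ a7 (i + n₀)
    rw [← Function.iterate_add_apply, ← Function.iterate_add_apply] at h1 ⊢
    rw [show i + n₀ + m₃ = i + j by omega] at h1
    exact h1.trans (hn₀ _ (by omega)).le
  exact hlev2 _ _ _ _ (T₁.flipU _ _ _ _ hyw) ((hw2.mono n3).symm') a8

/-- (C4) -/
theorem SC.bound (H : SC g k h) (hg : LP g c) (hc₁ : 0 < c₁)
    (T₁ : IQS g c₁) (hdeg : ∀ a s u x, T₁.Q a s u x → h a = h s → h u = h x) {p : X} {N : ℕ}
    (hN : 1 ≤ N) (hp : g^[N] p = p) (hC2 : ∀ y, WS g p y → h p = h y → y = p)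
    (hx : ∀ x, ∃ u s, T₁.Q p s u x) :
    ∃ m : ℕ, ∀ x y, WS g x y → h x = h y → SR g c (g^[m] x) (g^[m] y) := by
  have hind : ∃ m : ℕ, ∀ x ∈ (univ : Set X), ∀ y, WS g x y → h x = h y →
      SR g c (g^[m] x) (g^[m] y) := by
    refine isCompact_univ.induction_on (p := fun S : Set X => ∃ m : ℕ, ∀ x ∈ S, ∀ y,
      WS g x y → h x = h y → SR g c (g^[m] x) (g^[m] y)) ?_ ?_ ?_ ?_
    · exact ⟨0, fun t ht => absurd ht (notMem_empty t)⟩
    · rintro S S' hSS ⟨m, hm⟩
      exact ⟨m, fun t ht => hm t (hSS ht)⟩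
    · rintro S S' ⟨m, hm⟩ ⟨n, hn⟩
      refine ⟨max m n, fun t ht y hy hy' => ?_⟩
      rcases ht with ht | ht
      · exact SR_up (hm t ht y hy hy') (le_max_left _ _)
      · exact SR_up (hn t ht y hy hy') (le_max_right _ _)
    · rintro x -
      obtain ⟨U, hU, m, hm⟩ := H.bound_loc hg hc₁ T₁ hdeg hN hp hC2 x (hx x)
      exact ⟨U, mem_nhdsWithin_of_mem_nhds hU, m, hm⟩
  obtain ⟨m, hm⟩ := hind
  exact ⟨m, fun x => hm x (mem_univ x)⟩

/-- (C5) injectivity on the stable leaves -/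
theorem SC.stable_inj (H : SC g k h) (hg : LP g c) (hc₁ : 0 < c₁)
    (T₁ : IQS g c₁) (hdeg : ∀ a s u x, T₁.Q a s u x → h a = h s → h u = h x) {p : X} {N : ℕ}
    (hN : 1 ≤ N) (hp : g^[N] p = p) (hC2 : ∀ y, WS g p y → h p = h y → y = p)
    (hx : ∀ x, ∃ u s, T₁.Q p s u x) {x y : X} (hxy : WS g x y) (he : h x = h y) : x = y := by
  obtain ⟨m, hm⟩ := H.bound hg hc₁ T₁ hdeg hN hp hC2 hx
  have key : ∀ n : ℕ, SR g c (g^[m] (g.symm^[n] x)) (g^[m] (g.symm^[n] y)) := by
    intro n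
    apply hm
    · apply (WS.iter n).mp
      rwa [iterR, iterR]
    · rw [H.iter', H.iter', he]
  refine Pool.Agent.H789R2.GP.expansive hg ?_ ?_
  · have := key m
    rwa [iterR, iterR] at this
  · intro i
    have := key (m + i) 0
    simp only [Function.iterate_zero, id_eq] at this
    rwa [Function.iterate_add_apply, Function.iterate_add_apply, iterR, iterR] at this

/-- the quadrilateral structure covers -/
theorem IQS.surj [ConnectedSpace X] (hg : LP g c) (hc₁ : 0 < c₁) (T₁ : IQS g c₁) (p : X) :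
    ∀ x, ∃ u s, T₁.Q p s u x := by
  have hcov : IsCoveringMap (Leaf.pr T₁.toQS : Leaf g p → X) := pr_isCoveringMap hg hc₁ T₁.toQS p
  have hne : Nonempty (Leaf g p) := ⟨Leaf.base g p⟩
  intro x
  obtain ⟨v, hv⟩ := covering_surj hcov x
  refine ⟨v.u, v.s, ?_⟩
  have := v.pr_spec T₁.toQS
  rwa [hv] at this

/-- **Local injectivity of a semiconjugacy to an expansive homeomorphism**, if one periodic point is
isolated in its fibre along its stable and unstable leaves. -/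
theorem SC.local_inj [ConnectedSpace X] (H : SC g k h) (hg : LP g c) (hX : ULC X) (hc₁ : 0 < c₁)
    (T₁ : IQS g c₁) {e : ℝ} (he0 : 0 < e) (hexp : Exp k e) {p : X} {N : ℕ}
    (hN : 1 ≤ N) (hp : g^[N] p = p) (hC2 : ∀ y, WS g p y → h p = h y → y = p)
    (hC2' : ∀ y, WS g.symm p y → h p = h y → y = p) :
    ∃ δ > 0, ∀ x y, dist x y < δ → h x = h y → x = y := by
  have hp' : g.symm^[N] p = p := by
    have := iterL g N p
    rwa [hp] at this
  obtain ⟨d, hd, hdS⟩ := H.mapS he0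
  obtain ⟨d', hd', hdU⟩ := H.mapU he0
  obtain ⟨δ, hδ, hlp⟩ := hg.lp (min c (min d d')) (by have := hg.c_pos; positivity)
  refine ⟨δ, hδ, fun x y hxy he => ?_⟩
  obtain ⟨z, hz1, hz2⟩ := hlp x y hxy
  have e1 : h x = h z := hexp _ _
    (hdS _ _ (hz1.mono ((min_le_right _ _).trans (min_le_left _ _))))
    (by rw [he]; exact hdU _ _ (hz2.mono ((min_le_right _ _).trans (min_le_right _ _))))
  have e2 : x = z := H.stable_inj hg hc₁ T₁
    (fun a s u x hQ hh => T₁.symm.deg hg.symm hc₁ hX H.symm he0 hexp.symm hQ hh)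
    hN hp hC2 (T₁.surj hg hc₁ p) (WS.of_SR (hg.cS _ _ (hz1.mono (min_le_left _ _)))) e1
  have e3 : y = z := H.symm.stable_inj hg.symm hc₁ T₁.symm
    (fun a s u x hQ hh => T₁.deg hg hc₁ hX H he0 hexp hQ hh)
    hN hp' hC2' (T₁.symm.surj hg.symm hc₁ p)
    (WS.of_SR (hg.cU _ _ (hz2.mono (min_le_left _ _)))) (he.symm.trans e1)
  rw [e2, e3]

end Pool.Agent.TH289.K
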