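import Pool.Agent.TH289.K.A9

set_option autoImplicit false
set_option linter.unusedSectionVars false

open Filter Topology Set Metric
open scoped Manifold ContDiff

namespace Pool.Agent.TH289.K

open Pool.Agent.H721R2 Pool.Agent.H789R2.AN Pool.Agent.H789R2.GP
open Pool.Agent.TH289

theorem exp_of_expansive {Y : Type*} [MetricSpace Y] [CompactSpace Y] {g : Y ≃ₜ Y}
    (hg : Expansive g) {N : ℕ} (hN : 1 ≤ N) : ∃ e > 0, Exp (iterHomeo g N) e := by
  obtain ⟨𝒰, h𝒰, h1⟩ := hg
  rw [nhdsSet_diagonal_eq_uniformity, Metric.mem_uniformity_dist] at h𝒰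
  obtain ⟨ε, hε, h2⟩ := h𝒰
  obtain ⟨η, hη, h3⟩ := T1_unif g N hε
  obtain ⟨η', hη', h3'⟩ := T1_unif g.symm N hε
  refine ⟨min η η' / 2, by positivity, fun x y hxy hxy' => h1 x y fun n => ⟨h2 ?_, h2 ?_⟩⟩
  · have hnn : n = n % N + N * (n / N) := (Nat.mod_add_div n N).symm
    rw [hnn, Function.iterate_add_apply, Function.iterate_add_apply]
    refine h3 (n % N) (Nat.mod_lt _ (by omega)).le _ _ ?_
    have h4 := hxy (n / N)
    rw [iterHomeo_iter, iterHomeo_iter] at h4
    exact lt_of_le_of_lt h4 ((half_lt_self (lt_min hη hη')).trans_le (min_le_left _ _))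
  · have hnn : n = n % N + N * (n / N) := (Nat.mod_add_div n N).symm
    rw [hnn, Function.iterate_add_apply, Function.iterate_add_apply]
    refine h3' (n % N) (Nat.mod_lt _ (by omega)).le _ _ ?_
    have h4 := hxy' (n / N)
    rw [iterHomeo_symm_iter, iterHomeo_symm_iter] at h4
    exact lt_of_le_of_lt h4 ((half_lt_self (lt_min hη hη')).trans_le (min_le_right _ _))

/-- factors of transitive maps are transitive -/
theorem trans_factor {M Y : Type*} [TopologicalSpace M] [TopologicalSpace Y] {f : M → M}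
    {g : Y → Y} {h : M → Y} (hc : Continuous h) (hs : Function.Surjective h)
    (hh : ∀ x, h (f x) = g (h x)) (ht : TopTransitive f) : TopTransitive g := by
  intro U V hU hUn hV hVn
  obtain ⟨n, y, ⟨x, hx, hxy⟩, hy⟩ := ht (h ⁻¹' U) (h ⁻¹' V) (hU.preimage hc)
    (hUn.preimage hs) (hV.preimage hc) (hVn.preimage hs)
  refine ⟨n, h y, ⟨h x, hx, ?_⟩, hy⟩
  rw [← hxy]
  exact ((Function.Semiconj.iterate_right (f := h) (ga := f) (gb := g) hh n) x).symm

section manifold

variable {E : Type*} [NormedAddCommGroup E] [NormedSpace ℝ E] [FiniteDimensional ℝ E]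
  {M : Type*} [TopologicalSpace M] [T2Space M] [CompactSpace M] [ConnectedSpace M]
  [ChartedSpace E M] [IsManifold 𝓘(ℝ, E) ∞ M]

/-- **Semiconjugacies to expansive homeomorphisms are locally injective.** -/
theorem man_exp (f : Diffeomorph 𝓘(ℝ, E) 𝓘(ℝ, E) M M 1)
    (Es Eu : ∀ x : M, Submodule ℝ (TangentSpace 𝓘(ℝ, E) x)) (hA : IsAnosov f Es Eu)
    (hG : GPS f.toHomeomorph) {Y : Type*} [TopologicalSpace Y] [CompactSpace Y]
    [TopologicalSpace.MetrizableSpace Y] (g : Y ≃ₜ Y) (hg : Expansive g)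
    (h : M → Y) (hc : Continuous h) (hh : ∀ x, h (f x) = g (h x)) {p : M}
    (hp : p ∈ Function.periodicPts f)
    (hfin : (h ⁻¹' {h p} ∩ {y | Asym f p y ∨ Asym f.symm p y}).Finite) :
    ∀ x, ∃ U ∈ 𝓝 x, InjOn h U := by
  obtain ⟨m, ee, hee, hemb, hinje⟩ :=
    exists_embedding_euclidean_of_compact (I := 𝓘(ℝ, E)) (M := M)
  let _ : MetricSpace M := hemb.isEmbedding.comapMetricSpace ee
  let _ : MetricSpace Y := TopologicalSpace.metrizableSpaceMetric Y
  have hiso : ∀ x y : M, dist x y = ‖ee x - ee y‖ := fun x y => dist_eq_norm (ee x) (ee y)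
  have he1 : ContMDiff 𝓘(ℝ, E) (𝓡 m) 1 ee := hee.of_le (by simp)
  obtain ⟨N, ⟨S, hgS, -, -, -⟩, hN⟩ :=
    ((exists_sys_ev hiso he1 hinje f Es Eu hA).and (eventually_ge_atTop 1)).exists
  have : ProperSpace E := FiniteDimensional.proper_real E
  obtain ⟨e, he0, hexp⟩ := exp_of_expansive hg hN
  obtain ⟨δ, hδ, h3⟩ := abs_exp (E := E) S hN hgS (h := h) (f' := g) ⟨hc, hh⟩ he0 hexp hG hp hfin
  refine fun x => ⟨ball x (δ / 2), ball_mem_nhds _
    (half_pos hδ), fun y hy z hz hyz => h3 y z ?_ hyz⟩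
  have := dist_triangle_right y z x
  rw [mem_ball] at hy hz
  linarith

variable {E' : Type*} [NormedAddCommGroup E'] [NormedSpace ℝ E'] [FiniteDimensional ℝ E']
  {M' : Type*} [TopologicalSpace M'] [T2Space M'] [CompactSpace M'] [ConnectedSpace M']
  [ChartedSpace E' M']

/-- **Expansive factors on manifolds are finite quotients.** -/
theorem man_exp_cover (f : Diffeomorph 𝓘(ℝ, E) 𝓘(ℝ, E) M M 1)
    (Es Eu : ∀ x : M, Submodule ℝ (TangentSpace 𝓘(ℝ, E) x)) (hA : IsAnosov f Es Eu)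
    (hG : GPS f.toHomeomorph) (g : M' ≃ₜ M') (hg : Expansive g)
    (h : M → M') (hc : Continuous h) (hh : ∀ x, h (f x) = g (h x)) {p : M}
    (hp : p ∈ Function.periodicPts f)
    (hfin : (h ⁻¹' {h p} ∩ {y | Asym f p y ∨ Asym f.symm p y}).Finite)
    (hdim : Module.finrank ℝ E' ≤ Module.finrank ℝ E) :
    IsCoveringMap h ∧ Function.Surjective h ∧ (∀ y, (h ⁻¹' {y}).Finite) ∧ GPS g ∧
      TopTransitive g := by
  have hmet : TopologicalSpace.MetrizableSpace M' := Manifold.metrizableSpace 𝓘(ℝ, E') M'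
  have h4 := man_exp f Es Eu hA hG g hg h hc hh hp hfin
  obtain ⟨k1, k2, k3⟩ := Pool.Agent.TH553.K289.covering_of_locInj hdim hc h4
  refine ⟨k1, k2, k3, ?_, trans_factor hc k2 hh (man_self f Es Eu hA hG).1⟩
  obtain ⟨m, ee, hee, hemb, hinje⟩ :=
    exists_embedding_euclidean_of_compact (I := 𝓘(ℝ, E)) (M := M)
  let _ : MetricSpace M := hemb.isEmbedding.comapMetricSpace ee
  let _ : MetricSpace M' := TopologicalSpace.metrizableSpaceMetric M'
  refine gps_of_cover (f := f.toHomeomorph) (g := g) k1 k2 ?_ hh hG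
  have hcomp : IsCompact (univ : Set M) := isCompact_univ
  obtain ⟨δ, hδ, hleb⟩ := lebesgue_number_lemma_of_metric hcomp
    (c := fun x : M => interior (h4 x).choose) (fun x => isOpen_interior)
    (fun x _ => mem_iUnion.mpr ⟨x, mem_interior_iff_mem_nhds.mpr (h4 x).choose_spec.1⟩)
  refine ⟨δ, hδ, fun x y hxy he => ?_⟩
  obtain ⟨i, hi⟩ := hleb x (mem_univ x)
  exact (h4 i).choose_spec.2 (interior_subset (hi (mem_ball_self hδ)))
    (interior_subset (hi (by rw [mem_ball, dist_comm]; exact hxy))) he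

end manifold

end Pool.Agent.TH289.K
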