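import Mathlib

set_option autoImplicit false

open Filter Topology Set unitInterval

namespace Pool.Agent.TH289.K

/-- `γ` is a path in a leaf of the stable foliation of `f`: its iterates under `f` shrink to points,
i.e. for every neighbourhood `𝒰` of the diagonal of `M × M` the points `fⁿ(γ 0)` and `fⁿ(γ t)` are
`𝒰`-close for all large `n`, uniformly in `t`.  (Paths in unstable leaves are the stable paths of
`f.symm`.) -/
def StablePath {M : Type*} [TopologicalSpace M] (f : M ≃ₜ M) (γ : C(I, M)) : Prop :=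
  ∀ 𝒰 ∈ 𝓝ˢ (diagonal M), ∀ᶠ n in atTop, ∀ t, (f^[n] (γ 0), f^[n] (γ t)) ∈ 𝒰

/-- Global product structure: every stable path `α` and every unstable path `β` of `f` with the same
initial point span a rectangle, that is, a continuous map `R` of the square with `R(·, 0) = α`,
`R(0, ·) = β` whose horizontal sides lie in stable leaves (they are contracted uniformly by the
iterates of `f`) and whose vertical sides lie in unstable leaves (they are contracted uniformly by
the iterates of `f⁻¹`). -/
def GPS {M : Type*} [TopologicalSpace M] (f : M ≃ₜ M) : Prop :=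
  ∀ α β : C(I, M), StablePath f α → StablePath f.symm β → α 0 = β 0 →
    ∃ R : C(I × I, M), (∀ s, R (s, 0) = α s) ∧ (∀ t, R (0, t) = β t) ∧
      ∀ 𝒰 ∈ 𝓝ˢ (diagonal M), ∀ᶠ n in atTop, ∀ s t,
        (f^[n] (R (0, t)), f^[n] (R (s, t))) ∈ 𝒰 ∧
        (f.symm^[n] (R (s, 0)), f.symm^[n] (R (s, t))) ∈ 𝒰

/-- `g` is expansive: for some neighbourhood `𝒰` of the diagonal, points whose forward and backward
iterates are all `𝒰`-close are equal. -/
def Expansive {M : Type*} [TopologicalSpace M] (g : M ≃ₜ M) : Prop :=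
  ∃ 𝒰 ∈ 𝓝ˢ (diagonal M), ∀ x y : M, (∀ n : ℕ, (g^[n] x, g^[n] y) ∈ 𝒰 ∧
    (g.symm^[n] x, g.symm^[n] y) ∈ 𝒰) → x = y

end Pool.Agent.TH289.K
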